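import Mathlib

/-!
# Definitions: fields with pronilpotent Galois group
-/

namespace Pool.MP_bfb583_al.TR

universe u

/-- Every finite Galois extension of `K` has a nilpotent group: `G_K` is pronilpotent. -/
def GaloisNilpotent (K : Type u) [Field K] : Prop :=
  ∀ (L : Type u) [Field L] [Algebra K L] [FiniteDimensional K L] [IsGalois K L],
    Group.IsNilpotent (L ≃ₐ[K] L)

/-- Every finite Galois extension of `K` has a cyclic group: `G_K` is procyclic. -/
def GaloisCyclic (K : Type u) [Field K] : Prop :=
  ∀ (L : Type u) [Field L] [Algebra K L] [FiniteDimensional K L] [IsGalois K L],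
    IsCyclic (L ≃ₐ[K] L)

/-- The `n`-th powers have finite index in the multiplicative group of `K`. -/
def FinitePowerClasses (n : ℕ) (K : Type u) [Field K] : Prop :=
  (powMonoidHom n : Kˣ →* Kˣ).range.FiniteIndex

/-- No odd prime below `n` divides the degree of a finite Galois extension of `K`. -/
def NoSmallOddPrime (n : ℕ) (K : Type u) [Field K] : Prop :=
  ∀ (L : Type u) [Field L] [Algebra K L] [FiniteDimensional K L] [IsGalois K L] (p : ℕ),
    p.Prime → p ∣ Module.finrank K L → p < n → p = 2

end Pool.MP_bfb583_al.TR
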