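import Mathlib

/-!
# Quadratic polynomials
-/

namespace Pool.MP_bfb583_al.TR

open Polynomial

universe u

/-- Quadratic polynomials with square discriminant. -/
theorem quadratic_root {K : Type u} [Field K] (h2 : (2 : K) ≠ 0) {Q : K[X]}
    (hQ : Q.natDegree = 2) (hd : IsSquare Q.discr) : ∃ y, Q.eval y = 0 := by
  have hQ0 : Q ≠ 0 := by
    rintro rfl
    simp at hQ
  have hdeg : Q.degree = 2 := by
    rw [degree_eq_natDegree hQ0, hQ]
    rfl
  have ha : Q.coeff 2 ≠ 0 := by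
    rw [← hQ]
    exact leadingCoeff_ne_zero.2 hQ0
  rw [discr_of_degree_eq_two hdeg] at hd
  have : NeZero (2 : K) := ⟨h2⟩
  obtain ⟨s, hs⟩ := hd
  obtain ⟨y, hy⟩ := exists_quadratic_eq_zero (a := Q.coeff 2) (b := Q.coeff 1) (c := Q.coeff 0) ha
    ⟨s, by rw [discrim, ← hs]; ring⟩
  refine ⟨y, ?_⟩
  rw [eval_eq_sum_range, hQ]
  simp only [Finset.sum_range_succ, Finset.sum_range_zero]
  linear_combination hy

end Pool.MP_bfb583_al.TR
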