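import Mathlib

/-!
# Discriminants of polynomials over fields
-/

namespace Pool.MP_bfb583_al.TR

open Polynomial

universe u

/-- The product of the values of the derivative at the roots. -/
theorem prod_derivative {L : Type u} [Field L] (c : L) (s : Multiset L) :
    ∃ δ : L, (s.map fun r => ((C c * (s.map fun t => X - C t).prod).derivative).eval r).prod
      = c ^ s.card * (-1) ^ (s.card * (s.card - 1) / 2) * δ ^ 2 := by
  induction s using Multiset.induction_on with
  | empty => exact ⟨1, by simp⟩
  | cons a s ih =>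
    obtain ⟨δ, hδ⟩ := ih
    refine ⟨(s.map fun r => r - a).prod * δ, ?_⟩
    set g : L[X] := C c * (s.map fun t => X - C t).prod with hg
    have hf : C c * ((a ::ₘ s).map fun t => X - C t).prod = g * (X - C a) := by
      rw [Multiset.map_cons, Multiset.prod_cons, hg]
      ring
    rw [hf, Multiset.map_cons, Multiset.prod_cons, Multiset.card_cons]
    have hda : (derivative (g * (X - C a))).eval a = g.eval a := by
      simp [derivative_mul]
    have hga : g.eval a = c * (-1) ^ s.card * (s.map fun r => r - a).prod := by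
      rw [hg, eval_mul, eval_C, eval_multiset_prod, Multiset.map_map]
      have h1 : (s.map ((eval a) ∘ fun t => X - C t)) = s.map fun t => (-1) * (t - a) := by
        refine Multiset.map_congr rfl fun t _ => ?_
        simp
      rw [h1, Multiset.prod_map_mul, Multiset.map_const', Multiset.prod_replicate]
      ring
    have hdr : (s.map fun r => (derivative (g * (X - C a))).eval r)
        = s.map fun r => (derivative g).eval r * (r - a) := by
      refine Multiset.map_congr rfl fun r hr => ?_
      have hgr : g.eval r = 0 := by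
        rw [hg, eval_mul, eval_multiset_prod, Multiset.map_map]
        refine mul_eq_zero_of_right _ (Multiset.prod_eq_zero ?_)
        exact Multiset.mem_map.2 ⟨r, hr, by simp⟩
      simp [derivative_mul, hgr]
    rw [hda, hga, hdr, Multiset.prod_map_mul, hδ, Nat.triangle_succ]
    ring

/-- The discriminant of a polynomial with all roots in a field is a square of that field. -/
theorem discr_isSquare_of_splits {L : Type u} [Field L] {Q : L[X]} (hQ : 0 < Q.natDegree)
    (hs : Q.Splits) : IsSquare Q.discr := by
  have hQ0 : Q ≠ 0 := by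
    rintro rfl
    simp at hQ
  set n := Q.natDegree with hn
  set c := Q.leadingCoeff with hc
  have hc0 : c ≠ 0 := leadingCoeff_ne_zero.2 hQ0
  have hcard : Q.roots.card = n := (Polynomial.splits_iff_card_roots.1 hs)
  have hprod := hs.eq_prod_roots
  obtain ⟨δ, hδ⟩ := prod_derivative c Q.roots
  rw [← hprod, hcard] at hδ
  have h1 := resultant_eq_prod_eval Q Q.derivative (n - 1) (natDegree_derivative_le Q) hs
  have h2 := resultant_deriv (f := Q) (natDegree_pos_iff_degree_pos.1 hQ)
  rw [h1, hδ, ← hn, ← hc] at h2
  have hsq : ((-1 : L) ^ (n * (n - 1) / 2)) ^ 2 = 1 := by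
    rw [← pow_mul, mul_comm, pow_mul, neg_one_sq, one_pow]
  refine ⟨c ^ (n - 1) * δ, mul_left_cancel₀ hc0 ?_⟩
  have h3 : c * Q.discr = ((-1 : L) ^ (n * (n - 1) / 2))
      * ((-1) ^ (n * (n - 1) / 2) * c * Q.discr) := by
    linear_combination (-(c * Q.discr)) * hsq
  rw [h3, ← h2]
  generalize (-1 : L) ^ (n * (n - 1) / 2) = ε at hsq
  have hpow : c ^ n = c ^ (n - 1) * c := by
    rw [← pow_succ, show n - 1 + 1 = n by omega]
  rw [hpow]
  linear_combination (c ^ (n - 1) * (c ^ (n - 1) * c) * δ ^ 2) * hsq

/-- Discriminants commute with ring homomorphisms which keep the degree. -/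
theorem discr_map_of_ne {R K : Type*} [CommRing R] [CommRing K] [IsDomain K] (φ : R →+* K)
    {P : R[X]} (hP : 0 < P.natDegree) (hφ : φ P.leadingCoeff ≠ 0) :
    (P.map φ).discr = φ P.discr := by
  have hdeg : (P.map φ).natDegree = P.natDegree := natDegree_map_of_leadingCoeff_ne_zero φ hφ
  have hlc : (P.map φ).leadingCoeff = φ P.leadingCoeff := leadingCoeff_map_of_leadingCoeff_ne_zero φ hφ
  have h1 := congrArg φ (resultant_deriv (f := P) (natDegree_pos_iff_degree_pos.1 hP))
  have h2 := resultant_deriv (f := P.map φ) (natDegree_pos_iff_degree_pos.1 (hdeg ▸ hP))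
  rw [← resultant_map_map, map_mul, map_mul, map_pow, map_neg, map_one] at h1
  rw [hdeg, derivative_map, h1, hlc] at h2
  exact (mul_left_cancel₀ (mul_ne_zero (pow_ne_zero _ (neg_ne_zero.2 one_ne_zero)) hφ) h2).symm

/-- A polynomial over a field with nonzero discriminant is separable. -/
theorem separable_of_discr_ne_zero {K : Type*} [Field K] {Q : K[X]} (hQ : 0 < Q.natDegree)
    (hd : Q.discr ≠ 0) : Q.Separable := by
  have hQ0 : Q ≠ 0 := by
    rintro rfl
    simp at hQ
  have h2 := resultant_deriv (f := Q) (natDegree_pos_iff_degree_pos.1 hQ)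
  have hne : resultant Q Q.derivative Q.natDegree (Q.natDegree - 1) ≠ 0 := by
    rw [h2]
    exact mul_ne_zero (mul_ne_zero (pow_ne_zero _ (neg_ne_zero.2 one_ne_zero))
      (leadingCoeff_ne_zero.2 hQ0)) hd
  obtain ⟨p, q, -, -, hpq⟩ := exists_mul_add_mul_eq_C_resultant Q Q.derivative
    (m := Q.natDegree) (n := Q.natDegree - 1) le_rfl (natDegree_derivative_le Q)
    (Or.inl hQ.ne')
  set ρ := resultant Q Q.derivative Q.natDegree (Q.natDegree - 1) with hρ
  refine ⟨C ρ⁻¹ * p, C ρ⁻¹ * q, ?_⟩
  have : C ρ⁻¹ * (Q * p + derivative Q * q) = 1 := by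
    rw [hpq, ← C_mul, inv_mul_cancel₀ hne, C_1]
  linear_combination this

end Pool.MP_bfb583_al.TR
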