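import Mathlib

/-!
# Subgroups of finite index of the multiplicative group of an infinite field

If `G` has finite index in `Kˣ` and `F ⊆ K` is finite, then `z + F ⊆ G` for infinitely many `z`
(Hales-Jewett).
-/

namespace Pool.MP_bfb583_al.TR

open Finset

universe u

/-- Vectors with non-vanishing subset sums. -/
theorem exists_subset_sums (K : Type u) [Field K] [Infinite K] {ι : Type} [DecidableEq ι]
    (s : Finset ι) : ∃ x : ι → K, ∀ T ⊆ s, T.Nonempty → ∑ i ∈ T, x i ≠ 0 := by
  classical
  induction s using Finset.induction_on with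
  | empty =>
    refine ⟨fun _ => 0, fun T hT hne => ?_⟩
    rw [Finset.subset_empty.1 hT] at hne
    exact absurd hne Finset.not_nonempty_empty
  | insert a s ha ih =>
    obtain ⟨x, hx⟩ := ih
    obtain ⟨t, ht⟩ := Infinite.exists_notMem_finset
      (s.powerset.image fun T => -∑ i ∈ T, x i)
    refine ⟨Function.update x a t, fun T hT hne => ?_⟩
    have hupd : ∀ T' ⊆ s, ∑ i ∈ T', Function.update x a t i = ∑ i ∈ T', x i := by
      intro T' hT'
      refine Finset.sum_congr rfl fun i hi => ?_
      rw [Function.update_of_ne]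
      rintro rfl
      exact ha (hT' hi)
    by_cases haT : a ∈ T
    · have hsub : T.erase a ⊆ s := fun i hi =>
        (Finset.mem_insert.1 (hT (Finset.mem_of_mem_erase hi))).resolve_left
          (Finset.ne_of_mem_erase hi)
      rw [← Finset.insert_erase haT, Finset.sum_insert (Finset.notMem_erase a T),
        Function.update_self, hupd _ hsub]
      intro h
      apply ht
      rw [Finset.mem_image]
      exact ⟨T.erase a, Finset.mem_powerset.2 hsub, by linear_combination -h⟩
    · have hTs : T ⊆ s := fun i hi =>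
        (Finset.mem_insert.1 (hT hi)).resolve_left (by rintro rfl; exact haT hi)
      rw [hupd T hTs]
      exact hx T hTs hne

/-- The main lemma: some translate of a finite set lies in a given subgroup of finite index. -/
theorem exists_translate (K : Type u) [Field K] [Infinite K] (G : Subgroup Kˣ) [G.FiniteIndex]
    (F : Finset K) : ∃ z : K, ∀ f ∈ F, ∃ g ∈ G, (g : K) = z + f := by
  classical
  -- letters
  have : Finite (Kˣ ⧸ G) := Subgroup.finite_quotient_of_finiteIndex
  let F' : Finset K := insert 0 (insert 1 F)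
  let α : Type u := {x : K // x ∈ F'} × (Kˣ ⧸ G)
  let val : α → K := fun a => (a.1 : K) * ((Quotient.out a.2 : Kˣ) : K)
  let col : K → Option (Kˣ ⧸ G) := fun y =>
    if h : y = 0 then none else some (QuotientGroup.mk (Units.mk0 y h))
  obtain ⟨ι, hι, hHJ⟩ := Combinatorics.Line.exists_mono_in_high_dimension α (Option (Kˣ ⧸ G))
  obtain ⟨x, hx⟩ := exists_subset_sums K (ι := ι) Finset.univ
  obtain ⟨l, c, hl⟩ := hHJ fun w => col (∑ i, x i * val (w i))
  -- active and fixed parts
  set S : Finset ι := Finset.univ.filter fun i => l.idxFun i = none with hS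
  set d : K := ∑ i ∈ S, x i with hd
  have hdne : d ≠ 0 := by
    refine hx S (Finset.subset_univ _) ?_
    obtain ⟨i, hi⟩ := l.proper
    exact ⟨i, by simp [hS, hi]⟩
  set z' : K := ∑ i ∈ Sᶜ, x i * ((l.idxFun i).elim 0 val) with hz'
  have hval : ∀ a : α, ∑ i, x i * val (l a i) = z' + d * val a := by
    intro a
    rw [← Finset.sum_add_sum_compl S, add_comm]
    congr 1
    · refine Finset.sum_congr rfl fun i hi => ?_
      rw [hS, Finset.compl_filter, Finset.mem_filter] at hi
      obtain ⟨y, hy⟩ := Option.ne_none_iff_exists.mp hi.2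
      rw [l.apply_some hy.symm, ← hy]
      rfl
    · rw [hd, Finset.sum_mul]
      refine Finset.sum_congr rfl fun i hi => ?_
      rw [hS, Finset.mem_filter] at hi
      rw [l.apply_none _ _ hi.2]
  have hcol : ∀ a : α, col (z' + d * val a) = c := fun a => by
    rw [← hval a]
    exact hl a
  -- the color is not `none`
  have h0 : (0 : K) ∈ F' := by simp [F']
  have h1 : (1 : K) ∈ F' := by simp [F']
  have hne : c ≠ none := by
    intro hc
    have key : ∀ a : α, z' + d * val a = 0 := by
      intro a
      by_contra h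
      have := hcol a
      simp only [col, dif_neg h] at this
      rw [hc] at this
      exact Option.some_ne_none _ this
    have k0 := key (⟨0, h0⟩, 1)
    have k1 := key (⟨1, h1⟩, 1)
    simp only [val, zero_mul, mul_zero, add_zero, one_mul] at k0 k1
    rw [k0, zero_add] at k1
    exact (mul_ne_zero hdne (Units.ne_zero _)) k1
  obtain ⟨q0, hq0⟩ := Option.ne_none_iff_exists.mp hne
  -- representative
  let du : Kˣ := Units.mk0 d hdne
  let q : Kˣ ⧸ G := (QuotientGroup.mk du)⁻¹ * q0
  let w : Kˣ := du * (Quotient.out q : Kˣ)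
  have hw : (QuotientGroup.mk w : Kˣ ⧸ G) = q0 := by
    have : (QuotientGroup.mk (Quotient.out q : Kˣ) : Kˣ ⧸ G) = q := QuotientGroup.out_eq' q
    simp only [w, QuotientGroup.mk_mul, this, q]
    group
  refine ⟨z' / w, fun f hf => ?_⟩
  have hf' : f ∈ F' := by simp [F', hf]
  have hc := hcol (⟨f, hf'⟩, q)
  have hy : z' + d * val (⟨f, hf'⟩, q) = z' + w * f := by
    simp only [val, w, Units.val_mul, du, Units.val_mk0]
    ring
  rw [hy, ← hq0] at hc
  have hyne : z' + w * f ≠ 0 := by
    intro h
    simp only [col, dif_pos h] at hc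
    exact Option.some_ne_none _ hc.symm
  simp only [col, dif_neg hyne, Option.some.injEq] at hc
  rw [← hw, QuotientGroup.eq] at hc
  refine ⟨_, G.inv_mem hc, ?_⟩
  have hwne : (w : K) ≠ 0 := w.ne_zero
  simp only [mul_inv_rev, inv_inv, Units.val_mul, Units.val_inv_eq_inv_val, Units.val_mk0]
  field_simp

/-- Infinitely many translates. -/
theorem infinite_translates (K : Type u) [Field K] [Infinite K] (G : Subgroup Kˣ) [G.FiniteIndex]
    (F : Finset K) : {z : K | ∀ f ∈ F, ∃ g ∈ G, (g : K) = z + f}.Infinite := by
  classical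
  intro hfin
  obtain ⟨T, hT⟩ := Infinite.exists_subset_card_eq K (hfin.toFinset.card + 1)
  obtain ⟨z, hz⟩ := exists_translate K G ((F ×ˢ T).image fun p => p.1 + p.2)
  have hsub : T.image (fun t => z + t) ⊆ hfin.toFinset := by
    intro y hy
    obtain ⟨t, ht, rfl⟩ := Finset.mem_image.1 hy
    rw [Set.Finite.mem_toFinset]
    intro f hf
    obtain ⟨g, hg, hgf⟩ := hz (f + t) (Finset.mem_image.2 ⟨(f, t), Finset.mem_product.2 ⟨hf, ht⟩, rfl⟩)
    exact ⟨g, hg, by rw [hgf]; ring⟩
  have := Finset.card_le_card hsub
  rw [Finset.card_image_of_injective _ (add_right_injective z), hT] at this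
  omega

end Pool.MP_bfb583_al.TR
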