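import Mathlib
import Pool.Agent.Lib.MP_bfb583_al.TR.Ramsey

/-!
# Points near a given point, with respect to a subgroup of finite index
-/

namespace Pool.MP_bfb583_al.TR

open Finset

universe u

/-- Points `x` with `x - e₁ ∈ γ G` and `x - e ∈ (e₁ - e) G` for `e` in a finite set. -/
theorem near (K : Type u) [Field K] [Infinite K] (G : Subgroup Kˣ) [G.FiniteIndex]
    (e₁ : K) (γ : Kˣ) (E : Finset K) (hE : e₁ ∉ E) :
    {x : K | (∃ g ∈ G, x - e₁ = γ * (g : K)) ∧
      ∀ e ∈ E, ∃ g ∈ G, x - e = (e₁ - e) * (g : K)}.Infinite := by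
  classical
  have hinf := infinite_translates K G (insert 0 (E.image fun e => (γ : K) / (e₁ - e)))
  have hinj : Set.InjOn (fun z : K => e₁ + γ / z)
      {z : K | ∀ f ∈ insert 0 (E.image fun e => (γ : K) / (e₁ - e)), ∃ g ∈ G, (g : K) = z + f} := by
    intro z hz z' hz' h
    obtain ⟨g, -, hg⟩ := hz 0 (Finset.mem_insert_self _ _)
    obtain ⟨g', -, hg'⟩ := hz' 0 (Finset.mem_insert_self _ _)
    rw [add_zero] at hg hg'
    have h1 : (γ : K) / z = γ / z' := add_left_cancel h
    have hz0 : z ≠ 0 := hg ▸ g.ne_zero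
    have hz0' : z' ≠ 0 := hg' ▸ g'.ne_zero
    rw [div_eq_div_iff hz0 hz0'] at h1
    exact (mul_left_cancel₀ γ.ne_zero h1).symm
  refine (hinf.image hinj).mono ?_
  rintro _ ⟨z, hz, rfl⟩
  obtain ⟨g, hgG, hg⟩ := hz 0 (Finset.mem_insert_self _ _)
  rw [add_zero] at hg
  have hz0 : z ≠ 0 := hg ▸ g.ne_zero
  refine ⟨⟨g⁻¹, G.inv_mem hgG, ?_⟩, fun e he => ?_⟩
  · rw [Units.val_inv_eq_inv_val, hg]
    field_simp
    ring
  · obtain ⟨g', hgG', hg'⟩ := hz _ (Finset.mem_insert_of_mem (Finset.mem_image_of_mem _ he))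
    have hne : e₁ - e ≠ 0 := fun h => hE (by rwa [sub_eq_zero.1 h])
    refine ⟨g' * g⁻¹, G.mul_mem hgG' (G.inv_mem hgG), ?_⟩
    rw [Units.val_mul, Units.val_inv_eq_inv_val, hg, hg']
    field_simp
    ring

/-- Over a subfield `k` with `kˣ ⊆ G`: points outside `k` all of whose differences to a finite
set lie in `G`. -/
theorem outside (K : Type u) [Field K] [Infinite K] (G : Subgroup Kˣ) [G.FiniteIndex]
    (k : Subfield K) [Infinite k] (hk : k ≠ ⊤) (E : Finset K) :
    {x : K | x ∉ k ∧ ∀ e ∈ E, ∃ g ∈ G, x - e = (g : K)}.Infinite := by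
  classical
  obtain ⟨t, ht⟩ : ∃ t : K, t ∉ k := by
    by_contra h
    push Not at h
    exact hk (top_unique fun x _ => h x)
  intro hfin
  obtain ⟨T, hT⟩ := Infinite.exists_subset_card_eq k (hfin.toFinset.card + 2)
  obtain ⟨z, hz⟩ := exists_translate K G ((E ×ˢ T).image fun p => -p.1 + t * (p.2 : K))
  let S : Finset K := T.image fun c : k => z + t * (c : K)
  have hinj : Function.Injective fun c : k => z + t * (c : K) := by
    intro c c' h
    have h1 : t * (c : K) = t * (c' : K) := add_left_cancel h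
    have ht0 : t ≠ 0 := fun h0 => ht (h0 ▸ k.zero_mem)
    exact Subtype.ext (mul_left_cancel₀ ht0 h1)
  have hScard : S.card = hfin.toFinset.card + 2 := by
    rw [Finset.card_image_of_injective _ hinj, hT]
  have hk1 : (S.filter fun x => x ∈ k).card ≤ 1 := by
    rw [Finset.card_le_one]
    intro a ha b hb
    rw [Finset.mem_filter] at ha hb
    obtain ⟨c, -, rfl⟩ := Finset.mem_image.1 ha.1
    obtain ⟨c', -, rfl⟩ := Finset.mem_image.1 hb.1
    by_contra hne
    have hcc : (c : K) - c' ≠ 0 := fun h => hne (by rw [sub_eq_zero.1 h])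
    have h1 : t * ((c : K) - c') ∈ k := by
      have := k.sub_mem ha.2 hb.2
      have h2 : z + t * (c : K) - (z + t * (c' : K)) = t * ((c : K) - c') := by ring
      rwa [h2] at this
    have h3 : t ∈ k := by
      have := k.mul_mem h1 (k.inv_mem (k.sub_mem c.2 c'.2))
      rwa [mul_assoc, mul_inv_cancel₀ hcc, mul_one] at this
    exact ht h3
  have hsub : S.filter (fun x => x ∉ k) ⊆ hfin.toFinset := by
    intro y hy
    rw [Finset.mem_filter] at hy
    rw [Set.Finite.mem_toFinset]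
    refine ⟨hy.2, fun e he => ?_⟩
    obtain ⟨c, hc, rfl⟩ := Finset.mem_image.1 hy.1
    obtain ⟨g, hg, hgf⟩ := hz (-e + t * (c : K))
      (Finset.mem_image.2 ⟨(e, c), Finset.mem_product.2 ⟨he, hc⟩, rfl⟩)
    exact ⟨g, hg, by rw [hgf]; ring⟩
  have h1 := Finset.card_le_card hsub
  have h2 := Finset.card_filter_add_card_filter_not (s := S) (fun x => x ∈ k)
  omega

end Pool.MP_bfb583_al.TR
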