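import Mathlib
import Pool.Agent.Lib.MP_bfb583_al.TR.Near
import Pool.Agent.Lib.MP_bfb583_al.TR.Discr

/-!
# Infinitely many non-square values of the discriminant
-/

namespace Pool.MP_bfb583_al.TR

open Polynomial

universe u

/-- A non-square is detected by a quadratic character. -/
theorem exists_char {K : Type u} [Field K] {d : Kˣ} (hd : ¬ IsSquare (d : K)) :
    ∃ χ : Kˣ →* Multiplicative (ZMod 2), χ d ≠ 1 := by
  let H : Subgroup Kˣ := (powMonoidHom 2 : Kˣ →* Kˣ).range
  let V := Additive (Kˣ ⧸ H)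
  let _ : AddCommGroup V := inferInstanceAs (AddCommGroup (Additive (Kˣ ⧸ H)))
  have hV : ∀ x : V, 2 • x = 0 := by
    intro x
    obtain ⟨u, hu⟩ := QuotientGroup.mk_surjective (s := H) (Additive.toMul x)
    have h1 : (QuotientGroup.mk u : Kˣ ⧸ H) ^ 2 = 1 := by
      rw [← QuotientGroup.mk_pow, QuotientGroup.eq_one_iff]
      exact ⟨u, rfl⟩
    rw [hu, pow_two] at h1
    have h3 : x + x = 0 := congrArg Additive.ofMul h1
    exact (two_nsmul x).trans h3
  let _ : Module (ZMod 2) V := AddCommGroup.zmodModule (n := 2) (G := V) hV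
  have hne : (Additive.ofMul (QuotientGroup.mk d : Kˣ ⧸ H) : V) ≠ 0 := by
    intro h
    have h1 : (QuotientGroup.mk d : Kˣ ⧸ H) = 1 := h
    rw [QuotientGroup.eq_one_iff] at h1
    obtain ⟨u, hu⟩ := h1
    apply hd
    refine ⟨(u : K), ?_⟩
    rw [← hu]
    simp [pow_two]
  obtain ⟨φ, hφ⟩ : ∃ φ : Module.Dual (ZMod 2) V,
      φ (Additive.ofMul (QuotientGroup.mk d : Kˣ ⧸ H)) ≠ 0 := by
    by_contra h
    push Not at h
    exact hne ((Module.forall_dual_apply_eq_zero_iff (ZMod 2) _).1 h)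
  refine ⟨{ toFun := fun u => Multiplicative.ofAdd (φ (Additive.ofMul (QuotientGroup.mk u : Kˣ ⧸ H)))
            map_one' := ?_
            map_mul' := ?_ }, ?_⟩
  · have : (Additive.ofMul (QuotientGroup.mk (1 : Kˣ) : Kˣ ⧸ H) : V) = 0 := rfl
    rw [this, map_zero]
    rfl
  · intro u v
    have : (Additive.ofMul (QuotientGroup.mk (u * v) : Kˣ ⧸ H) : V)
        = Additive.ofMul (QuotientGroup.mk u : Kˣ ⧸ H) + Additive.ofMul (QuotientGroup.mk v : Kˣ ⧸ H) :=
      rfl
    rw [this, map_add]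
    rfl
  · exact fun h => hφ h

/-- Products of the relations given by `near`. -/
theorem prod_rel {K : Type u} [Field K] (G : Subgroup Kˣ) (x e₁ : K) (E : Finset K)
    (h : ∀ e ∈ E, ∃ g ∈ G, x - e = (e₁ - e) * (g : K)) :
    ∃ g ∈ G, ∏ e ∈ E, (x - e) = (∏ e ∈ E, (e₁ - e)) * (g : K) := by
  classical
  induction E using Finset.induction_on with
  | empty => exact ⟨1, G.one_mem, by simp⟩
  | insert a E ha ih =>
    obtain ⟨g, hg, hgE⟩ := ih fun e he => h e (Finset.mem_insert_of_mem he)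
    obtain ⟨g', hg', hga⟩ := h a (Finset.mem_insert_self a E)
    refine ⟨g' * g, G.mul_mem hg' hg, ?_⟩
    rw [Finset.prod_insert ha, Finset.prod_insert ha, hgE, hga, Units.val_mul]
    ring

/-- Polynomials `r h² ∏ (X - e)` take infinitely many non-square values. -/
theorem infinite_nonsquare {K : Type u} [Field K] [Infinite K] (hK : ∃ d : K, ¬ IsSquare d)
    {D h : K[X]} {r : K} {E : Finset K} (hr : r ≠ 0) (hh : h ≠ 0) (hE : E.Nonempty)
    (hD : D = C r * h ^ 2 * ∏ e ∈ E, (X - C e)) : {x : K | ¬ IsSquare (D.eval x)}.Infinite := by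
  classical
  obtain ⟨d, hd⟩ := hK
  have hd0 : d ≠ 0 := by
    rintro rfl
    exact hd ⟨0, by simp⟩
  obtain ⟨χ, hχ⟩ := exists_char (d := Units.mk0 d hd0) hd
  obtain ⟨e₁, he₁⟩ := hE
  have hprod0 : ∏ e ∈ E.erase e₁, (e₁ - e) ≠ 0 := by
    refine Finset.prod_ne_zero_iff.2 fun e he => sub_ne_zero.2 ?_
    exact (Finset.ne_of_mem_erase he).symm
  have hc0 : r * ∏ e ∈ E.erase e₁, (e₁ - e) ≠ 0 := mul_ne_zero hr hprod0
  have hker : χ.ker.FiniteIndex := inferInstance
  have hinf := near K χ.ker e₁ (Units.mk0 d hd0 * (Units.mk0 _ hc0)⁻¹) (E.erase e₁)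
    (Finset.notMem_erase e₁ E)
  refine (hinf.sdiff (h.roots.toFinset.finite_toSet)).mono ?_
  rintro x ⟨⟨⟨g, hg, hxe₁⟩, hx⟩, hxh⟩ ⟨s, hs⟩
  have hhx : h.eval x ≠ 0 := by
    intro h0
    apply hxh
    rw [Finset.mem_coe, Multiset.mem_toFinset, mem_roots hh]
    exact h0
  obtain ⟨g', hg', hprod⟩ := prod_rel χ.ker x e₁ (E.erase e₁) hx
  have heval : D.eval x = d * (h.eval x) ^ 2 * ((g : K) * (g' : K)) := by
    have h1 : ∏ e ∈ E, (x - e) = (x - e₁) * ∏ e ∈ E.erase e₁, (x - e) :=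
      (Finset.mul_prod_erase E (fun e => x - e) he₁).symm
    rw [hD, eval_mul, eval_mul, eval_C, eval_pow, eval_prod]
    simp only [eval_sub, eval_X, eval_C]
    rw [h1, hprod, hxe₁]
    rw [Units.val_mul, Units.val_inv_eq_inv_val, Units.val_mk0, Units.val_mk0]
    field_simp
  have hs0 : s ≠ 0 := by
    rintro rfl
    rw [heval, mul_zero] at hs
    exact mul_ne_zero (mul_ne_zero hd0 (pow_ne_zero 2 hhx)) (mul_ne_zero g.ne_zero g'.ne_zero) hs
  have hunits : Units.mk0 s hs0 * Units.mk0 s hs0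
      = Units.mk0 d hd0 * (Units.mk0 (h.eval x) hhx) ^ 2 * (g * g') := by
    ext
    simp only [Units.val_mul, Units.val_mk0, Units.val_pow_eq_pow_val]
    rw [← heval, hs]
  have hsq : ∀ a : Multiplicative (ZMod 2), a * a = 1 := by decide
  have h2 := congrArg χ hunits
  rw [map_mul, hsq, map_mul, map_mul, map_pow, map_mul, pow_two, hsq, mul_one,
    (MonoidHom.mem_ker).1 hg, (MonoidHom.mem_ker).1 hg', mul_one, mul_one] at h2
  exact hχ h2.symm

/-- The same, allowing a constant times a square. -/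
theorem infinite_nonsquare' {K : Type u} [Field K] [Infinite K] (hK : ∃ d : K, ¬ IsSquare d)
    {D h : K[X]} {r : K} {E : Finset K} (hr : r ≠ 0) (hh : h ≠ 0)
    (hE : E.Nonempty ∨ ¬ IsSquare r)
    (hD : D = C r * h ^ 2 * ∏ e ∈ E, (X - C e)) : {x : K | ¬ IsSquare (D.eval x)}.Infinite := by
  classical
  rcases E.eq_empty_or_nonempty with rfl | hE'
  · have hr' : ¬ IsSquare r := hE.resolve_left (by simp)
    refine (Set.infinite_univ.sdiff (h.roots.toFinset.finite_toSet)).mono ?_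
    rintro x ⟨-, hxh⟩ ⟨s, hs⟩
    have hhx : h.eval x ≠ 0 := by
      intro h0
      apply hxh
      rw [Finset.mem_coe, Multiset.mem_toFinset, mem_roots hh]
      exact h0
    apply hr'
    refine ⟨s / h.eval x, ?_⟩
    rw [hD, Finset.prod_empty, mul_one, eval_mul, eval_C, eval_pow] at hs
    field_simp
    rw [hs]
    ring
  · exact infinite_nonsquare hK hr hh hE' hD

/-- From a root lemma to points on the curve. -/
theorem points_of_root {K : Type u} [Field K] {n : ℕ}
    (hn : 0 < n)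
    (hroot : ∀ Q : K[X], Q.natDegree = n → ¬ IsSquare Q.discr → ∃ y, Q.eval y = 0)
    {P : K[X][X]} (hP : P.natDegree = n)
    (hD : {x : K | ¬ IsSquare (P.discr.eval x)}.Infinite) :
    {p : K × K | ¬ IsSquare (P.discr.eval p.1) ∧ P.evalEval p.1 p.2 = 0}.Infinite := by
  classical
  have hP0 : P ≠ 0 := by
    rintro rfl
    simp at hP
    omega
  have hl0 : P.leadingCoeff ≠ 0 := leadingCoeff_ne_zero.2 hP0
  have hinf := hD.sdiff (P.leadingCoeff.roots.toFinset.finite_toSet)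
  refine Set.Infinite.of_image Prod.fst (hinf.mono ?_)
  rintro x ⟨hx, hxl⟩
  have hlx : (evalRingHom x) P.leadingCoeff ≠ 0 := by
    intro h0
    apply hxl
    rw [Finset.mem_coe, Multiset.mem_toFinset, mem_roots hl0]
    exact h0
  have hdeg : (P.map (evalRingHom x)).natDegree = n := by
    rw [natDegree_map_of_leadingCoeff_ne_zero _ hlx, hP]
  have hdis : (P.map (evalRingHom x)).discr = P.discr.eval x :=
    discr_map_of_ne (evalRingHom x) (hP ▸ hn) hlx
  obtain ⟨y, hy⟩ := hroot _ hdeg (by rw [hdis]; exact hx)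
  rw [map_evalRingHom_eval] at hy
  exact ⟨(x, y), ⟨hx, hy⟩, rfl⟩

end Pool.MP_bfb583_al.TR
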