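import Mathlib
import Pool.Agent.Lib.MP_bfb583_al.TR.Spec
import Pool.Agent.Lib.MP_bfb583_al.TR.Defs
import Pool.Agent.Lib.MP_bfb583_al.TR.Quadratic

/-!
# Curves defined over an algebraically closed subfield
-/

namespace Pool.MP_bfb583_al.TR

open Polynomial

universe u v

/-- Over an algebraically closed field: separate the roots of odd multiplicity. -/
theorem exists_odd_part {k : Type v} [Field k] [IsAlgClosed k] {D : k[X]} (hD : D ≠ 0) :
    ∃ (r : k) (h : k[X]) (E : Finset k), r ≠ 0 ∧ h ≠ 0 ∧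
      D = C r * h ^ 2 * ∏ e ∈ E, (X - C e) := by
  classical
  have hs : D.Splits := IsAlgClosed.splits D
  have hprod := hs.eq_prod_roots
  refine ⟨D.leadingCoeff, ∏ a ∈ D.roots.toFinset, (X - C a) ^ (D.roots.count a / 2),
    D.roots.toFinset.filter fun a => Odd (D.roots.count a), leadingCoeff_ne_zero.2 hD, ?_, ?_⟩
  · exact Finset.prod_ne_zero_iff.2 fun a _ => pow_ne_zero _ (X_sub_C_ne_zero a)
  · conv_lhs => rw [hprod]
    rw [mul_assoc]
    congr 1
    rw [Finset.prod_multiset_map_count, Finset.prod_filter, ← Finset.prod_pow,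
      ← Finset.prod_mul_distrib]
    refine Finset.prod_congr rfl fun a _ => ?_
    split_ifs with h
    · rw [← pow_mul, ← pow_succ]
      congr 1
      obtain ⟨m, hm⟩ := h
      omega
    · rw [← pow_mul, mul_one]
      congr 1
      rw [Nat.not_odd_iff_even] at h
      obtain ⟨m, hm⟩ := h
      omega

/-- Values which are `n`-th powers, outside the constants. -/
theorem infinite_powers {k : Type v} {K : Type u} [Field k] [IsAlgClosed k] [Field K]
    [Algebra k K] (hne : ¬ Function.Surjective (algebraMap k K)) {n : ℕ} (hn : 0 < n)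
    (hF : FinitePowerClasses n K) (f : k[X]) :
    {x : K | x ∉ Set.range (algebraMap k K) ∧ ∃ u : K, u ^ n = aeval x f}.Infinite := by
  classical
  have hk : Infinite k := IsAlgClosed.instInfinite
  let k' : Subfield K := (algebraMap k K).fieldRange
  have hk' : Infinite k' := Infinite.of_injective (fun c : k => (⟨algebraMap k K c, ⟨c, rfl⟩⟩ : k'))
    fun a b hab => (algebraMap k K).injective (congrArg Subtype.val hab)
  have hK : Infinite K := Infinite.of_injective _ (algebraMap k K).injective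
  have hk'top : k' ≠ ⊤ := by
    intro h
    apply hne
    intro x
    have hx : x ∈ k' := h ▸ Subfield.mem_top x
    exact hx
  have hfi : (powMonoidHom n : Kˣ →* Kˣ).range.FiniteIndex := hF
  refine (outside K (powMonoidHom n : Kˣ →* Kˣ).range k' hk'top
    (f.roots.toFinset.image (algebraMap k K))).mono ?_
  rintro x ⟨hxk, hx⟩
  refine ⟨fun h => hxk h, ?_⟩
  have hs : f.Splits := IsAlgClosed.splits f
  have hprod := hs.eq_prod_roots
  obtain ⟨c, hc⟩ := IsAlgClosed.exists_pow_nat_eq f.leadingCoeff hn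
  have key : ∀ s : Multiset k, (∀ a ∈ s, a ∈ f.roots) →
      ∃ u : K, u ^ n = (s.map fun a => x - algebraMap k K a).prod := by
    intro s
    induction s using Multiset.induction_on with
    | empty => exact fun _ => ⟨1, by simp⟩
    | cons a s ih =>
      intro has
      obtain ⟨u, hu⟩ := ih fun b hb => has b (Multiset.mem_cons_of_mem hb)
      obtain ⟨g, ⟨w, hw⟩, hg⟩ := hx (algebraMap k K a)
        (Finset.mem_image_of_mem _ (Multiset.mem_toFinset.2 (has a (Multiset.mem_cons_self a s))))
      refine ⟨(w : K) * u, ?_⟩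
      rw [Multiset.map_cons, Multiset.prod_cons, hg, ← hw, mul_pow, hu]
      simp
  obtain ⟨u, hu⟩ := key f.roots fun a ha => ha
  refine ⟨algebraMap k K c * u, ?_⟩
  conv_rhs => rw [hprod]
  rw [mul_pow, ← map_pow, hc, hu, map_mul, aeval_C]
  congr 1
  rw [map_multiset_prod, Multiset.map_map]
  congr 1
  refine Multiset.map_congr rfl fun a _ => ?_
  simp

/-- Elements outside an algebraically closed subfield are not roots of polynomials over it. -/
theorem aeval_ne_zero {k : Type v} {K : Type u} [Field k] [IsAlgClosed k] [Field K]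
    [Algebra k K] {x : K} (hx : x ∉ Set.range (algebraMap k K)) {f : k[X]} (hf : f ≠ 0) :
    aeval x f ≠ 0 := by
  intro h0
  apply hx
  have hint : IsIntegral k x := isAlgebraic_iff_isIntegral.1 ⟨f, hf, h0⟩
  exact minpoly.mem_range_of_degree_eq_one k x
    (IsAlgClosed.degree_eq_one_of_irreducible k (minpoly.irreducible hint))

/-- Cardano's formula. -/
theorem cardano {K : Type u} [Field K] [CharZero K] (a b c d s u : K) (ha : a ≠ 0)
    (hs : s ^ 2 = (2 * b ^ 3 - 9 * a * b * c + 27 * a ^ 2 * d) ^ 2 + 4 * (3 * a * c - b ^ 2) ^ 3)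
    (hu : u ^ 3 = (-(2 * b ^ 3 - 9 * a * b * c + 27 * a ^ 2 * d) + s) / 2)
    (hu0 : u = 0 → 2 * b ^ 3 - 9 * a * b * c + 27 * a ^ 2 * d = 0) :
    ∃ y : K, a * y ^ 3 + b * y ^ 2 + c * y + d = 0 := by
  set p := 3 * a * c - b ^ 2 with hp
  set q := 2 * b ^ 3 - 9 * a * b * c + 27 * a ^ 2 * d with hq
  obtain ⟨w, hw⟩ : ∃ w : K, w ^ 3 + 3 * p * w + q = 0 := by
    by_cases h0 : u = 0
    · refine ⟨0, ?_⟩
      rw [hu0 h0]
      ring
    · refine ⟨u - p / u, ?_⟩
      have h2 : s = 2 * u ^ 3 + q := by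
        rw [hu]
        ring
      have h3 : u ^ 6 + q * u ^ 3 - p ^ 3 = 0 := by
        have h4 : (4 : K) * (u ^ 6 + q * u ^ 3 - p ^ 3) = 0 := by
          rw [h2] at hs
          linear_combination hs
        exact (mul_eq_zero.1 h4).resolve_left (by norm_num)
      field_simp
      linear_combination h3
  refine ⟨(w - b) / (3 * a), ?_⟩
  have h27 : (27 : K) * a ^ 2 ≠ 0 := mul_ne_zero (by norm_num) (pow_ne_zero 2 ha)
  have h1 : 27 * a ^ 2 * (a * ((w - b) / (3 * a)) ^ 3 + b * ((w - b) / (3 * a)) ^ 2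
      + c * ((w - b) / (3 * a)) + d) = w ^ 3 + 3 * p * w + q := by
    rw [hp, hq]
    field_simp
    ring
  rw [hw] at h1
  exact (mul_eq_zero.1 h1).resolve_left h27

end Pool.MP_bfb583_al.TR
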