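import Mathlib
import Pool.Agent.Lib.MP_bfb583_al.TR.Defs

/-!
# Subgroups of prime index in nilpotent groups, and descent of squares
-/

namespace Pool.MP_bfb583_al.TR

open Polynomial

universe u

/-- In a nilpotent group subgroups of prime index are normal. -/
theorem normal_of_prime_index {G : Type u} [Group G] [hG : Group.IsNilpotent G] (H : Subgroup G)
    {p : ℕ} (hp : p.Prime) (hi : H.index = p) : H.Normal := by
  have hnc : NormalizerCondition G := Group.normalizerCondition_of_isNilpotent
  have hlt : H < ⊤ := by
    rw [lt_top_iff_ne_top]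
    intro h
    rw [h, Subgroup.index_top] at hi
    exact hp.one_lt.ne hi
  have h1 := hnc H hlt
  have hdvd : H.relIndex (Subgroup.normalizer (H : Set G)) * (Subgroup.normalizer (H : Set G)).index = p := by
    rw [← hi]
    exact Subgroup.relIndex_mul_index h1.le
  have h2 : H.relIndex (Subgroup.normalizer (H : Set G)) ≠ 1 := by
    intro h
    rw [Subgroup.relIndex_eq_one] at h
    exact h1.not_ge h
  have h3 : (Subgroup.normalizer (H : Set G)).index = 1 := by
    rcases (Nat.Prime.eq_one_or_self_of_dvd hp _ (Dvd.intro_left _ hdvd)) with h | h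
    · exact h
    · exfalso
      rw [h] at hdvd
      exact h2 (Nat.eq_of_mul_eq_mul_right hp.pos (by rw [hdvd, one_mul]))
  rw [Subgroup.index_eq_one] at h3
  exact Subgroup.normalizer_eq_top_iff.1 h3

/-- Squares descend along extensions of odd degree. -/
theorem isSquare_descend {K N : Type*} [Field K] [Field N] [Algebra K N] [FiniteDimensional K N]
    (hodd : ¬ 2 ∣ Module.finrank K N) {d : K} (hd : IsSquare (algebraMap K N d)) : IsSquare d := by
  obtain ⟨δ, hδ⟩ := hd
  have hint : IsIntegral K δ := IsIntegral.of_finite K δ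
  have hne : (X ^ 2 - C d : K[X]) ≠ 0 := X_pow_sub_C_ne_zero (by norm_num) d
  have hroot : aeval δ (X ^ 2 - C d : K[X]) = 0 := by
    simp [hδ, pow_two]
  have hle : (minpoly K δ).natDegree ≤ 2 := by
    have h := natDegree_le_of_dvd (minpoly.dvd K δ hroot) hne
    rwa [natDegree_X_pow_sub_C] at h
  have hdvd : (minpoly K δ).natDegree ∣ Module.finrank K N := minpoly.degree_dvd hint
  have hpos : 0 < (minpoly K δ).natDegree := minpoly.natDegree_pos hint
  have hone : (minpoly K δ).natDegree = 1 := by
    interval_cases h : (minpoly K δ).natDegree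
    · rfl
    · exact absurd hdvd hodd
  obtain ⟨y, hy⟩ := minpoly.natDegree_eq_one_iff.1 hone
  refine ⟨y, (algebraMap K N).injective ?_⟩
  rw [hδ, map_mul, hy]

end Pool.MP_bfb583_al.TR
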