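import Mathlib
import Pool.Agent.Lib.MP_bfb583_al.TR.Cubic

/-!
# Pronilpotent and procyclic Galois groups
-/

namespace Pool.MP_bfb583_al.TR

open Polynomial

universe u

theorem nilpotent_of_cyclic {K : Type u} [Field K] (hK : GaloisCyclic K) : GaloisNilpotent K := by
  intro L _ _ _ _
  have hc : IsCyclic (L ≃ₐ[K] L) := hK L
  let _ : CommGroup (L ≃ₐ[K] L) := IsCyclic.commGroup
  exact CommGroup.isNilpotent

/-- A root of `X ^ n - a` is multiplied by a power of `ζ`. -/
theorem exists_zeta_pow {K M : Type*} [Field K] [Field M] [Algebra K M] {n : ℕ} (hn : 0 < n)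
    {ζ : K} (hζ : IsPrimitiveRoot ζ n) {a : K} (ha : a ≠ 0) {α : M}
    (hα : α ^ n = algebraMap K M a) (σ : M ≃ₐ[K] M) :
    ∃ i : ℕ, σ α = algebraMap K M ζ ^ i * α := by
  have hα0 : α ≠ 0 := by
    rintro rfl
    rw [zero_pow hn.ne'] at hα
    exact ha ((map_eq_zero (algebraMap K M)).1 hα.symm)
  have hζ' : IsPrimitiveRoot (algebraMap K M ζ) n :=
    hζ.map_of_injective (algebraMap K M).injective
  have h1 : (σ α / α) ^ n = 1 := by
    rw [div_pow, ← map_pow, hα, AlgEquiv.commutes, div_self]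
    exact (map_ne_zero (algebraMap K M)).2 ha
  have : NeZero n := ⟨hn.ne'⟩
  obtain ⟨i, -, hi⟩ := hζ'.eq_pow_of_pow_eq_one h1
  exact ⟨i, by rw [hi]; field_simp⟩

/-- Elements fixed by a generator are in the base field. -/
theorem mem_of_fixed {K M : Type*} [Field K] [Field M] [Algebra K M] [FiniteDimensional K M]
    [IsGalois K M] {σ : M ≃ₐ[K] M} (hσ : ∀ τ : M ≃ₐ[K] M, τ ∈ Subgroup.zpowers σ) {x : M}
    (hx : σ x = x) : ∃ c : K, algebraMap K M c = x := by
  have h1 : x ∈ Set.range (algebraMap K M) := by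
    rw [IsGalois.mem_range_algebraMap_iff_fixed]
    intro τ
    have h2 : Subgroup.zpowers σ ≤ MulAction.stabilizer (M ≃ₐ[K] M) x := by
      rw [Subgroup.zpowers_le, MulAction.mem_stabilizer_iff]
      exact hx
    exact h2 (hσ τ)
  exact h1

/-- In a field with procyclic Galois group and a primitive `n`-th root of unity, `n` prime, the
`n`-th powers have finite index. -/
theorem finitePowerClasses_of_cyclic {K : Type u} [Field K] (hK : GaloisCyclic K) {n : ℕ}
    (hn : n.Prime) {ζ : K} (hζ : IsPrimitiveRoot ζ n) : FinitePowerClasses n K := by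
  by_cases hall : (powMonoidHom n : Kˣ →* Kˣ).range = ⊤
  · rw [FinitePowerClasses, hall]
    infer_instance
  obtain ⟨a, ha⟩ : ∃ a : Kˣ, a ∉ (powMonoidHom n : Kˣ →* Kˣ).range := by
    by_contra h
    push Not at h
    exact hall ((Subgroup.eq_top_iff' _).2 h)
  have hnK : (n : K) ≠ 0 := by
    have : NeZero n := ⟨hn.ne_zero⟩
    exact (hζ.neZero').out
  have key : ∀ b : Kˣ, ∃ m : Fin n, ∃ c : Kˣ, b = a ^ (m : ℕ) * c ^ n := by
    intro b
    by_cases hab : b = a
    · refine ⟨⟨1, hn.one_lt⟩, 1, ?_⟩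
      rw [hab]
      simp
    have hsepa : (X ^ n - C (a : K)).Separable := separable_X_pow_sub_C _ hnK a.ne_zero
    have hsepb : (X ^ n - C (b : K)).Separable := separable_X_pow_sub_C _ hnK b.ne_zero
    have hba : (b : K) - a ≠ 0 := fun h => hab (Units.ext (sub_eq_zero.1 h))
    have hcop : IsCoprime (X ^ n - C (a : K)) (X ^ n - C (b : K)) := by
      refine ⟨C ((b : K) - a)⁻¹, -C ((b : K) - a)⁻¹, ?_⟩
      have h1 : C ((b : K) - a)⁻¹ * (C (b : K) - C (a : K)) = 1 := by
        rw [← C_sub, ← C_mul, inv_mul_cancel₀ hba, C_1]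
      linear_combination h1
    have hsep : ((X ^ n - C (a : K)) * (X ^ n - C (b : K))).Separable := hsepa.mul hsepb hcop
    let M := ((X ^ n - C (a : K)) * (X ^ n - C (b : K))).SplittingField
    have hgal : IsGalois K M := IsGalois.of_separable_splitting_field hsep
    have hcyc : IsCyclic (M ≃ₐ[K] M) := hK M
    have hsplit : (((X ^ n - C (a : K)) * (X ^ n - C (b : K))).map (algebraMap K M)).Splits :=
      SplittingField.splits _
    have hne : (((X ^ n - C (a : K)) * (X ^ n - C (b : K))).map (algebraMap K M)) ≠ 0 :=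
      (Polynomial.map_ne_zero_iff (algebraMap K M).injective).2 hsep.ne_zero
    have hroot : ∀ d : K, (X ^ n - C d) ∣ ((X ^ n - C (a : K)) * (X ^ n - C (b : K))) →
        ∃ α : M, α ^ n = algebraMap K M d := by
      intro d hd
      have h1 : ((X ^ n - C d).map (algebraMap K M)).Splits :=
        hsplit.of_dvd hne (Polynomial.map_dvd _ hd)
      obtain ⟨α, hα⟩ := h1.exists_eval_eq_zero (by
        rw [degree_map, degree_X_pow_sub_C hn.pos]
        exact_mod_cast hn.ne_zero)
      refine ⟨α, ?_⟩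
      rw [eval_map_algebraMap] at hα
      simpa [sub_eq_zero] using hα
    obtain ⟨α, hα⟩ := hroot a (dvd_mul_right _ _)
    obtain ⟨β, hβ⟩ := hroot b (dvd_mul_left _ _)
    obtain ⟨σ, hσ⟩ := hcyc.exists_generator
    obtain ⟨i, hi⟩ := exists_zeta_pow hn.pos hζ a.ne_zero hα σ
    obtain ⟨j, hj⟩ := exists_zeta_pow hn.pos hζ b.ne_zero hβ σ
    have hα0 : α ≠ 0 := by
      rintro rfl
      rw [zero_pow hn.ne_zero] at hα
      exact a.ne_zero ((map_eq_zero (algebraMap K M)).1 hα.symm)
    have hβ0 : β ≠ 0 := by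
      rintro rfl
      rw [zero_pow hn.ne_zero] at hβ
      exact b.ne_zero ((map_eq_zero (algebraMap K M)).1 hβ.symm)
    have hζ' : IsPrimitiveRoot (algebraMap K M ζ) n :=
      hζ.map_of_injective (algebraMap K M).injective
    have hi0 : ¬ n ∣ i := by
      intro hdvd
      apply ha
      have h1 : σ α = α := by
        rw [hi, (hζ'.pow_eq_one_iff_dvd i).2 hdvd, one_mul]
      obtain ⟨c, hc⟩ := mem_of_fixed hσ h1
      have hcn : c ^ n = a := by
        apply (algebraMap K M).injective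
        rw [map_pow, hc, hα]
      have hc0 : c ≠ 0 := by
        rintro rfl
        rw [zero_pow hn.ne_zero] at hcn
        exact a.ne_zero hcn.symm
      exact ⟨Units.mk0 c hc0, Units.ext (by simpa using hcn)⟩
    -- solve `i * m ≡ j`
    obtain ⟨m, hmn, hm⟩ : ∃ m < n, i * m ≡ j [MOD n] := by
      have hco : Nat.Coprime i n := (hn.coprime_iff_not_dvd.2 hi0).symm
      have : Fact n.Prime := ⟨hn⟩
      have hiz : (i : ZMod n) ≠ 0 := by
        rw [Ne, ZMod.natCast_eq_zero_iff]
        exact hi0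
      refine ⟨((j : ZMod n) * (i : ZMod n)⁻¹).val, ZMod.val_lt _, ?_⟩
      rw [← ZMod.natCast_eq_natCast_iff, Nat.cast_mul, ZMod.natCast_val, ZMod.cast_id]
      field_simp
    have hfix : σ (β / α ^ m) = β / α ^ m := by
      rw [map_div₀, map_pow, hi, hj, mul_pow, ← pow_mul]
      have h1 : algebraMap K M ζ ^ (i * m) = algebraMap K M ζ ^ j := by
        rw [pow_eq_pow_mod _ hζ'.pow_eq_one, hm, ← pow_eq_pow_mod _ hζ'.pow_eq_one]
      rw [h1]
      have h2 : algebraMap K M ζ ^ j ≠ 0 := pow_ne_zero _ (hζ'.ne_zero hn.ne_zero)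
      exact mul_div_mul_left _ _ h2
    obtain ⟨c, hc⟩ := mem_of_fixed hσ hfix
    have hcb : (b : K) = (a : K) ^ m * c ^ n := by
      apply (algebraMap K M).injective
      rw [map_mul, map_pow, map_pow, hc, ← hα, ← hβ, div_pow]
      have h2 : (α ^ m) ^ n ≠ 0 := pow_ne_zero _ (pow_ne_zero _ hα0)
      have h3 : (α ^ n) ^ m = (α ^ m) ^ n := pow_right_comm α n m
      rw [h3, mul_div_assoc', mul_div_cancel_left₀ _ h2]
    have hc0 : c ≠ 0 := by
      rintro rfl
      rw [zero_pow hn.ne_zero, mul_zero] at hcb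
      exact b.ne_zero hcb
    exact ⟨⟨m, hmn⟩, Units.mk0 c hc0, Units.ext (by simpa using hcb)⟩
  have hfin : Finite (Kˣ ⧸ (powMonoidHom n : Kˣ →* Kˣ).range) := by
    refine Finite.of_surjective
      (fun m : Fin n => (QuotientGroup.mk (a ^ (m : ℕ)) : Kˣ ⧸ (powMonoidHom n : Kˣ →* Kˣ).range))
      ?_
    intro x
    obtain ⟨b, rfl⟩ := QuotientGroup.mk_surjective x
    obtain ⟨m, c, hb⟩ := key b
    refine ⟨m, ?_⟩
    rw [hb]
    rw [QuotientGroup.eq]
    exact ⟨c, by simp⟩
  exact Subgroup.finiteIndex_of_finite_quotient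

end Pool.MP_bfb583_al.TR
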