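import Mathlib

/-!
# Galois groups with a normal Sylow subgroup: the group theory
-/

namespace Pool.MP_bfb583_al.TR

open Polynomial IntermediateField

universe u

/-- The finite Galois groups over `K` have normal Sylow `ℓ`-subgroups, and their orders have no
prime factors below `k` except possibly `ℓ`. -/
def NormalSylow (ℓ k : ℕ) (K : Type u) [Field K] : Prop :=
  ∀ (L : Type u) [Field L] [Algebra K L] [FiniteDimensional K L] [IsGalois K L],
    (∀ S : Sylow ℓ (L ≃ₐ[K] L), (S : Subgroup (L ≃ₐ[K] L)).Normal) ∧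
      ∀ p : ℕ, p.Prime → p ∣ Module.finrank K L → p < k → p = ℓ

/-- A fixed point. -/
theorem exists_fixed {K L : Type u} [Field K] [Field L] [Algebra K L] [FiniteDimensional K L]
    [IsGalois K L] {ℓ k : ℕ} (hℓ : ℓ.Prime) (Ω : Finset L)
    (hst : ∀ σ : L ≃ₐ[K] L, ∀ ρ ∈ Ω, σ ρ ∈ Ω) (hcard : ¬ ℓ ∣ Ω.card)
    (w : L) (hw : Module.finrank K K⟮w⟯ = ℓ) (hF : NormalSylow ℓ k K)
    (h2 : ∀ σ : L ≃ₐ[K] L, ∀ A ⊆ Ω, A.card = k → (∀ ρ ∈ A, σ ρ = ρ) → σ w = w) :
    ∃ ρ ∈ Ω, ρ ∈ Set.range (algebraMap K L) := by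
  classical
  have hfact : Fact ℓ.Prime := ⟨hℓ⟩
  let W : SubMulAction (L ≃ₐ[K] L) L :=
    { carrier := (Ω : Set L)
      smul_mem' := fun σ ρ hρ => hst σ ρ hρ }
  have hWcard : Nat.card W = Ω.card := by
    have h1 : Nat.card W = Nat.card (Ω : Set L) := rfl
    rw [h1, Nat.card_coe_set_eq, Set.ncard_coe_finset]
  have hWfin : Finite W := by
    apply Nat.finite_of_card_ne_zero
    rw [hWcard]
    intro h0
    rw [h0] at hcard
    exact hcard (dvd_zero _)
  obtain ⟨S, hSn, hp, hSindex⟩ : ∃ S : Subgroup (L ≃ₐ[K] L), S.Normal ∧ IsPGroup ℓ S ∧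
      ¬ ℓ ∣ S.index := by
    obtain ⟨S₀⟩ : Nonempty (Sylow ℓ (L ≃ₐ[K] L)) := inferInstance
    exact ⟨S₀.toSubgroup, (hF L).1 S₀, S₀.isPGroup', S₀.not_dvd_index⟩
  obtain ⟨v, hv⟩ := hp.nonempty_fixed_point_of_prime_not_dvd_card (α := W) (by rwa [hWcard])
  have hvΩ : (v : L) ∈ Ω := v.2
  have hSv : S ≤ MulAction.stabilizer (L ≃ₐ[K] L) (v : L) := by
    intro s hs
    have h1 := hv ⟨s, hs⟩
    exact congrArg Subtype.val h1
  refine ⟨v, hvΩ, ?_⟩
  -- the subgroup of index `ℓ`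
  have hindex : (K⟮w⟯.fixingSubgroup).index = ℓ := by
    have h1 : Nat.card (K⟮w⟯.fixingSubgroup) * (K⟮w⟯.fixingSubgroup).index
        = Nat.card (L ≃ₐ[K] L) := Subgroup.card_mul_index _
    rw [IsGalois.card_fixingSubgroup_eq_finrank, IsGalois.card_aut_eq_finrank,
      ← Module.finrank_mul_finrank K K⟮w⟯ L, mul_comm, hw] at h1
    exact Nat.eq_of_mul_eq_mul_right Module.finrank_pos h1
  have hmemN : ∀ t : L ≃ₐ[K] L, t w = w → t ∈ K⟮w⟯.fixingSubgroup := by
    intro t ht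
    have h1 : Subgroup.zpowers t ≤ K⟮w⟯.fixingSubgroup := by
      rw [← IntermediateField.le_iff_le, IntermediateField.adjoin_simple_le_iff,
        IntermediateField.mem_fixedField_iff]
      have h2 : Subgroup.zpowers t ≤ MulAction.stabilizer (L ≃ₐ[K] L) w := by
        rw [Subgroup.zpowers_le]
        exact ht
      exact fun f hf => h2 hf
    exact h1 (Subgroup.mem_zpowers t)
  -- the orbit of the fixed point
  have horb : ∀ ρ ∈ MulAction.orbit (L ≃ₐ[K] L) (v : L), ∀ s ∈ S, s ρ = ρ := by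
    rintro _ ⟨g, rfl⟩ s hs
    have h1 : g⁻¹ * s * g ∈ S := by
      have := hSn.conj_mem s hs g⁻¹
      rwa [inv_inv] at this
    have h2 : (g⁻¹ * s * g) (v : L) = v := hSv h1
    have h3 : g ((g⁻¹ * s * g) (v : L)) = s (g (v : L)) := by
      have h4 : g * (g⁻¹ * s * g) = s * g := by group
      exact congrArg (fun σ : L ≃ₐ[K] L => σ (v : L)) h4
    rw [h2] at h3
    exact h3.symm
  have horbfin : (MulAction.orbit (L ≃ₐ[K] L) (v : L)).Finite :=
    Ω.finite_toSet.subset (by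
      rintro _ ⟨σ, rfl⟩
      exact hst σ _ hvΩ)
  have hlt : (MulAction.stabilizer (L ≃ₐ[K] L) (v : L)).index < k := by
    by_contra hge
    push Not at hge
    rw [MulAction.index_stabilizer, Set.ncard_eq_toFinset_card _ horbfin] at hge
    obtain ⟨A, hA, hAcard⟩ := Finset.exists_subset_card_eq hge
    have hSN : S ≤ K⟮w⟯.fixingSubgroup := by
      intro s hs
      apply hmemN
      refine h2 s A ?_ hAcard fun ρ hρ => ?_
      · intro ρ hρ
        have h1 := (Set.Finite.mem_toFinset horbfin).1 (hA hρ)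
        obtain ⟨σ, rfl⟩ := h1
        exact hst σ _ hvΩ
      · exact horb ρ ((Set.Finite.mem_toFinset horbfin).1 (hA hρ)) s hs
    exact hSindex (hindex ▸ Subgroup.index_dvd_of_le hSN)
  have htop : MulAction.stabilizer (L ≃ₐ[K] L) (v : L) = ⊤ := by
    rw [← Subgroup.index_eq_one]
    by_contra hne
    obtain ⟨p, hp, hpdvd⟩ := Nat.exists_prime_and_dvd hne
    have h1 : p ∣ Module.finrank K L := by
      rw [← IsGalois.card_aut_eq_finrank]
      exact hpdvd.trans (Subgroup.index_dvd_card _)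
    have h2 : p ≤ (MulAction.stabilizer (L ≃ₐ[K] L) (v : L)).index :=
      Nat.le_of_dvd (Nat.pos_of_ne_zero Subgroup.index_ne_zero_of_finite) hpdvd
    have h3 : p = ℓ := (hF L).2 p hp h1 (lt_of_le_of_lt h2 hlt)
    rw [h3] at hpdvd
    exact hSindex (hpdvd.trans (Subgroup.index_dvd_of_le hSv))
  rw [IsGalois.mem_range_algebraMap_iff_fixed]
  intro σ
  have h1 : σ ∈ MulAction.stabilizer (L ≃ₐ[K] L) (v : L) := htop ▸ Subgroup.mem_top σ
  exact h1

end Pool.MP_bfb583_al.TR
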