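import Mathlib
import Pool.Agent.Lib.MP_bfb583_al.TR.Spec

/-!
# Non-square values of polynomials with one irreducible quadratic factor
-/

namespace Pool.MP_bfb583_al.TR

open Polynomial

universe u

/-- Products of the relations given by `near`, indexed form. -/
theorem prod_rel' {K : Type u} [Field K] (G : Subgroup Kˣ) (x e₁ : K) {ι : Type*} (s : Finset ι)
    (f : ι → K) (h : ∀ i ∈ s, ∃ g ∈ G, x - f i = (e₁ - f i) * (g : K)) :
    ∃ g ∈ G, ∏ i ∈ s, (x - f i) = (∏ i ∈ s, (e₁ - f i)) * (g : K) := by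
  classical
  induction s using Finset.induction_on with
  | empty => exact ⟨1, G.one_mem, by simp⟩
  | insert a s ha ih =>
    obtain ⟨g, hg, hgE⟩ := ih fun e he => h e (Finset.mem_insert_of_mem he)
    obtain ⟨g', hg', hga⟩ := h a (Finset.mem_insert_self a s)
    refine ⟨g' * g, G.mul_mem hg' hg, ?_⟩
    rw [Finset.prod_insert ha, Finset.prod_insert ha, hgE, hga, Units.val_mul]
    ring

/-- The algebraic step: if `r q(x) l(x)` is a square for `x`, `x'` and `x * x'` (product in the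
torus of `q`) then a product of linear factors in `x'` is a square. -/
theorem torus_step {K : Type u} [Field K] (r t n x x' : K) (E : Finset K)
    (hx : ∀ e ∈ E, x ≠ e) (hxx : x + x' - t ≠ 0)
    (hq : ∀ z : K, z ^ 2 - t * z + n ≠ 0) (hr : r ≠ 0)
    (h1 : IsSquare (r * (x ^ 2 - t * x + n) * ∏ e ∈ E, (x - e)))
    (h2 : IsSquare (r * (x' ^ 2 - t * x' + n) * ∏ e ∈ E, (x' - e)))
    (h3 : IsSquare (r * (((x * x' - n) / (x + x' - t)) ^ 2
      - t * ((x * x' - n) / (x + x' - t)) + n) * ∏ e ∈ E, ((x * x' - n) / (x + x' - t) - e))) :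
    IsSquare (r * (∏ e ∈ E, (x' - e)) * (∏ e ∈ E, (x' - (e + (e ^ 2 - t * e + n) / (x - e))))
      * (x' - (t - x)) ^ E.card) := by
  set y := (x * x' - n) / (x + x' - t) with hy
  have hqy : (x ^ 2 - t * x + n) * (x' ^ 2 - t * x' + n)
      = (x + x' - t) ^ 2 * (y ^ 2 - t * y + n) := by
    rw [hy]
    field_simp
    ring
  have hly : (∏ e ∈ E, (y - e)) * (x' - (t - x)) ^ E.card
      = (∏ e ∈ E, (x - e)) * ∏ e ∈ E, (x' - (e + (e ^ 2 - t * e + n) / (x - e))) := by
    rw [← Finset.prod_const, ← Finset.prod_mul_distrib, ← Finset.prod_mul_distrib]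
    refine Finset.prod_congr rfl fun e he => ?_
    have hxe : x - e ≠ 0 := sub_ne_zero.2 (hx e he)
    rw [hy]
    field_simp
    ring
  obtain ⟨s₁, hs₁⟩ := h1
  obtain ⟨s₂, hs₂⟩ := h2
  obtain ⟨s₃, hs₃⟩ := h3
  have hlx : ∏ e ∈ E, (x - e) ≠ 0 :=
    Finset.prod_ne_zero_iff.2 fun e he => sub_ne_zero.2 (hx e he)
  have hxt : x' - (t - x) ≠ 0 := by
    intro h
    apply hxx
    linear_combination h
  have hqy0 : y ^ 2 - t * y + n ≠ 0 := hq y
  refine ⟨s₁ * s₂ * s₃ * (x' - (t - x)) ^ E.card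
    / (r * (x + x' - t) * (y ^ 2 - t * y + n) * ∏ e ∈ E, (x - e)), ?_⟩
  generalize hA : ∏ e ∈ E, (x - e) = A at *
  generalize hB : ∏ e ∈ E, (x' - e) = B at *
  generalize hC : ∏ e ∈ E, (y - e) = C' at *
  generalize hR : ∏ e ∈ E, (x' - (e + (e ^ 2 - t * e + n) / (x - e))) = R at *
  generalize hT : (x' - (t - x)) ^ E.card = T at *
  generalize hqx : x ^ 2 - t * x + n = qx at *
  generalize hqx' : x' ^ 2 - t * x' + n = qx' at *
  generalize hqyy : y ^ 2 - t * y + n = qy at *
  have hwd : x + x' - t ≠ 0 := hxx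
  generalize hw : x + x' - t = w at *
  field_simp
  have key : (s₁ * s₂ * s₃) ^ 2 = (r * qx * A) * (r * qx' * B) * (r * qy * C') := by
    rw [hs₁, hs₂, hs₃]
    ring
  have key2 : (s₁ * s₂ * s₃) ^ 2 * T ^ 2 = r ^ 3 * (w ^ 2 * qy ^ 2) * A * B * T * (A * R) := by
    rw [key, ← hly]
    linear_combination (r ^ 3 * A * B * qy * C' * T ^ 2) * hqy
  linear_combination -key2

/-- Polynomials `r h² q ∏ (X - e)` with `q` an irreducible quadratic polynomial and at least one
linear factor take infinitely many non-square values. -/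
theorem infinite_nonsquare_quad {K : Type u} [Field K] [Infinite K]
    (hK : ∃ d : K, ¬ IsSquare d) {D h : K[X]} {r t n : K} {E : Finset K} (hr : r ≠ 0)
    (hh : h ≠ 0) (hE : E.Nonempty) (hq : ∀ z : K, z ^ 2 - t * z + n ≠ 0)
    (hD : ∀ x : K, D.eval x
      = r * (h.eval x) ^ 2 * (x ^ 2 - t * x + n) * ∏ e ∈ E, (x - e)) :
    {x : K | ¬ IsSquare (D.eval x)}.Infinite := by
  classical
  intro hfin
  obtain ⟨d, hd⟩ := hK
  have hd0 : d ≠ 0 := by
    rintro rfl
    exact hd ⟨0, by simp⟩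
  obtain ⟨χ, hχ⟩ := exists_char (d := Units.mk0 d hd0) hd
  obtain ⟨e₁, he₁⟩ := hE
  -- the exceptional set
  set S : Finset K := hfin.toFinset ∪ h.roots.toFinset ∪ E with hS
  have hgood : ∀ x : K, x ∉ S →
      IsSquare (r * (x ^ 2 - t * x + n) * ∏ e ∈ E, (x - e)) := by
    intro x hx
    rw [hS, Finset.mem_union, Finset.mem_union, not_or, not_or] at hx
    obtain ⟨⟨h1, h2⟩, -⟩ := hx
    have hsq : IsSquare (D.eval x) := by
      by_contra hns
      exact h1 ((Set.Finite.mem_toFinset hfin).2 hns)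
    have hhx : h.eval x ≠ 0 := by
      intro h0
      apply h2
      rw [Multiset.mem_toFinset, mem_roots hh]
      exact h0
    obtain ⟨s, hs⟩ := hsq
    refine ⟨s / h.eval x, ?_⟩
    rw [hD x] at hs
    field_simp
    linear_combination hs
  -- choice of `x`
  obtain ⟨x, hx⟩ := (S ∪ {t - e₁} ∪ (E.erase e₁).image
    (fun e => e + (e ^ 2 - t * e + n) / (e₁ - e))).exists_notMem
  rw [Finset.mem_union, Finset.mem_union, not_or, not_or, Finset.mem_singleton] at hx
  obtain ⟨⟨hxS, hxt⟩, hximg⟩ := hx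
  have hxE : ∀ e ∈ E, x ≠ e := by
    rintro e he rfl
    exact hxS (by rw [hS]; exact Finset.mem_union_right _ he)
  set ρ : K → K := fun e => e + (e ^ 2 - t * e + n) / (x - e) with hρ
  have hρe : ∀ e ∈ E, e₁ - ρ e ≠ 0 := by
    intro e he h0
    have hxe : x - e ≠ 0 := sub_ne_zero.2 (hxE e he)
    have h1 : (e₁ - e) * (x - e) = e ^ 2 - t * e + n := by
      have h2 : e₁ - e = (e ^ 2 - t * e + n) / (x - e) := by
        rw [hρ] at h0
        linear_combination h0
      rw [h2]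
      field_simp
    by_cases hee : e = e₁
    · rw [hee, sub_self, zero_mul] at h1
      exact hq e₁ h1.symm
    · have hne : e₁ - e ≠ 0 := sub_ne_zero.2 (Ne.symm hee)
      apply hximg
      refine Finset.mem_image.2 ⟨e, Finset.mem_erase.2 ⟨hee, he⟩, ?_⟩
      rw [← h1]
      field_simp
      ring
  have htx : e₁ - (t - x) ≠ 0 := by
    intro h0
    apply hxt
    linear_combination h0
  have hprod1 : ∏ e ∈ E.erase e₁, (e₁ - e) ≠ 0 := by
    refine Finset.prod_ne_zero_iff.2 fun e he => sub_ne_zero.2 ?_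
    exact (Finset.ne_of_mem_erase he).symm
  have hprod2 : ∏ e ∈ E, (e₁ - ρ e) ≠ 0 := Finset.prod_ne_zero_iff.2 hρe
  set c : K := r * (∏ e ∈ E.erase e₁, (e₁ - e)) * (∏ e ∈ E, (e₁ - ρ e))
    * (e₁ - (t - x)) ^ E.card with hc
  have hc0 : c ≠ 0 :=
    mul_ne_zero (mul_ne_zero (mul_ne_zero hr hprod1) hprod2) (pow_ne_zero _ htx)
  have hker : χ.ker.FiniteIndex := inferInstance
  have hnot : e₁ ∉ E.erase e₁ ∪ E.image ρ ∪ {t - x} := by
    rw [Finset.mem_union, Finset.mem_union, not_or, not_or, Finset.mem_singleton]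
    refine ⟨⟨Finset.notMem_erase e₁ E, ?_⟩, fun h0 => htx (sub_eq_zero.2 h0)⟩
    intro hm
    obtain ⟨e, he, hee⟩ := Finset.mem_image.1 hm
    exact hρe e he (by rw [hee, sub_self])
  have hinf := near K χ.ker e₁ (Units.mk0 d hd0 * (Units.mk0 _ hc0)⁻¹)
    (E.erase e₁ ∪ E.image ρ ∪ {t - x}) hnot
  obtain ⟨x', ⟨⟨g, hg, hxe₁⟩, hx'⟩, hx'B⟩ := (hinf.sdiff (S ∪ {t - x} ∪ S.image
    (fun y => (y * (t - x) - n) / (y - x))).finite_toSet).nonempty
  rw [Finset.mem_coe, Finset.mem_union, Finset.mem_union, not_or, not_or,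
    Finset.mem_singleton] at hx'B
  obtain ⟨⟨hx'S, hx't⟩, hx'img⟩ := hx'B
  have hxx : x + x' - t ≠ 0 := by
    intro h0
    apply hx't
    linear_combination h0
  have hyS : (x * x' - n) / (x + x' - t) ∉ S := by
    intro hy
    apply hx'img
    refine Finset.mem_image.2 ⟨_, hy, ?_⟩
    have hyx : (x * x' - n) / (x + x' - t) - x ≠ 0 := by
      intro h0
      have h1 : x ^ 2 - t * x + n = 0 := by
        have h2 : (x * x' - n) / (x + x' - t) = x := sub_eq_zero.1 h0
        rw [div_eq_iff hxx] at h2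
        linear_combination -h2
      exact hq x h1
    have hyw : (x * x' - n) / (x + x' - t) * (x + x' - t) = x * x' - n := div_mul_cancel₀ _ hxx
    rw [div_eq_iff hyx]
    linear_combination -hyw
  have hstep := torus_step r t n x x' E hxE hxx hq hr (hgood x hxS) (hgood x' hx'S)
    (hgood _ hyS)
  obtain ⟨g₁, hg₁, hP1⟩ := prod_rel' χ.ker x' e₁ (E.erase e₁) id fun e he =>
    hx' e (Finset.mem_union_left _ (Finset.mem_union_left _ he))
  obtain ⟨g₂, hg₂, hP2⟩ := prod_rel' χ.ker x' e₁ E ρ fun e he =>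
    hx' _ (Finset.mem_union_left _ (Finset.mem_union_right _ (Finset.mem_image_of_mem ρ he)))
  obtain ⟨g₃, hg₃, hP3⟩ := hx' (t - x) (Finset.mem_union_right _ (Finset.mem_singleton_self _))
  simp only [id] at hP1
  have hfact : ∏ e ∈ E, (x' - e) = (x' - e₁) * ∏ e ∈ E.erase e₁, (x' - e) :=
    (Finset.mul_prod_erase E (fun e => x' - e) he₁).symm
  have hval : r * (∏ e ∈ E, (x' - e)) * (∏ e ∈ E, (x' - ρ e)) * (x' - (t - x)) ^ E.card
      = d * ((g : K) * g₁ * g₂ * (g₃ : K) ^ E.card) := by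
    rw [hfact, hP1, hP2, hP3, hxe₁, mul_pow, Units.val_mul, Units.val_inv_eq_inv_val,
      Units.val_mk0, Units.val_mk0, hc]
    field_simp
  obtain ⟨s, hs⟩ := hstep
  rw [hval] at hs
  have hs0 : s ≠ 0 := by
    rintro rfl
    rw [mul_zero] at hs
    exact mul_ne_zero hd0 (mul_ne_zero (mul_ne_zero (mul_ne_zero g.ne_zero g₁.ne_zero)
      g₂.ne_zero) (pow_ne_zero _ g₃.ne_zero)) hs
  have hunits : Units.mk0 s hs0 * Units.mk0 s hs0
      = Units.mk0 d hd0 * (g * g₁ * g₂ * g₃ ^ E.card) := by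
    ext
    simp only [Units.val_mul, Units.val_mk0, Units.val_pow_eq_pow_val]
    rw [hs]
  have hsq : ∀ a : Multiplicative (ZMod 2), a * a = 1 := by decide
  have h2 := congrArg χ hunits
  rw [map_mul, hsq, map_mul, map_mul, map_mul, map_mul, map_pow, (MonoidHom.mem_ker).1 hg,
    (MonoidHom.mem_ker).1 hg₁, (MonoidHom.mem_ker).1 hg₂, (MonoidHom.mem_ker).1 hg₃, one_pow,
    mul_one, mul_one, mul_one, mul_one] at h2
  exact hχ h2.symm

/-- Polynomials `r h² q ∏ (X - e)` with `q = 1` or `q` irreducible quadratic (and then at least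
one linear factor), not squares, take infinitely many non-square values. -/
theorem infinite_nonsquare_gen {K : Type u} [Field K] [Infinite K]
    (hK : ∃ d : K, ¬ IsSquare d) {D h q : K[X]} {r : K} {E : Finset K} (hr : r ≠ 0)
    (hh : h ≠ 0) (hE : E.Nonempty ∨ ¬ IsSquare r)
    (hq : q = 1 ∨ (Irreducible q ∧ q.natDegree = 2 ∧ E.Nonempty))
    (hD : D = C r * h ^ 2 * q * ∏ e ∈ E, (X - C e)) :
    {x : K | ¬ IsSquare (D.eval x)}.Infinite := by
  rcases hq with rfl | ⟨hqi, hq2, hE'⟩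
  · exact infinite_nonsquare' hK hr hh hE (by rw [hD, mul_one])
  · have hq0 : q ≠ 0 := hqi.ne_zero
    have hl : q.coeff 2 ≠ 0 := by
      rw [← hq2]
      exact leadingCoeff_ne_zero.2 hq0
    have hroot : ∀ z : K, q.eval z ≠ 0 := by
      intro z hz
      have h1 := degree_eq_one_of_irreducible_of_root hqi (x := z) hz
      rw [degree_eq_natDegree hq0, hq2] at h1
      exact absurd h1 (by decide)
    have heval : ∀ z : K, q.eval z = q.coeff 2 * (z ^ 2 - (-(q.coeff 1 / q.coeff 2)) * z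
        + q.coeff 0 / q.coeff 2) := by
      intro z
      rw [eval_eq_sum_range, hq2]
      simp only [Finset.sum_range_succ, Finset.sum_range_zero]
      field_simp
      ring
    refine infinite_nonsquare_quad hK (mul_ne_zero hr hl) hh hE'
      (t := -(q.coeff 1 / q.coeff 2)) (n := q.coeff 0 / q.coeff 2) ?_ ?_
    · intro z hz
      apply hroot z
      rw [heval, hz, mul_zero]
    · intro x
      rw [hD, eval_mul, eval_mul, eval_mul, eval_C, eval_pow, eval_prod, heval x]
      simp only [eval_sub, eval_X, eval_C]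
      ring

/-- The same, from the polynomial not being a square. -/
theorem infinite_nonsquare_of_not_square {K : Type u} [Field K] [Infinite K]
    (hK : ∃ d : K, ¬ IsSquare d) {D h q : K[X]} {r : K} {E : Finset K} (hd : ¬ IsSquare D)
    (hq : q = 1 ∨ (Irreducible q ∧ q.natDegree = 2 ∧ E.Nonempty))
    (hD : D = C r * h ^ 2 * q * ∏ e ∈ E, (X - C e)) :
    {x : K | ¬ IsSquare (D.eval x)}.Infinite := by
  have h0 : D ≠ 0 := fun h => hd (h ▸ ⟨0, by simp⟩)
  have hr : r ≠ 0 := by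
    rintro rfl
    exact h0 (by rw [hD, C_0, zero_mul, zero_mul, zero_mul])
  have hh : h ≠ 0 := by
    rintro rfl
    exact h0 (by rw [hD, zero_pow two_ne_zero, mul_zero, zero_mul, zero_mul])
  have hE : E.Nonempty ∨ ¬ IsSquare r := by
    by_contra hcon
    push Not at hcon
    obtain ⟨hE, s, hs⟩ := hcon
    rcases hq with rfl | ⟨-, -, hE'⟩
    · apply hd
      refine ⟨C s * h, ?_⟩
      rw [hD, hE, Finset.prod_empty, mul_one, mul_one, hs, C_mul]
      ring
    · exact hE'.ne_empty hE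
  exact infinite_nonsquare_gen hK hr hh hE hq hD

end Pool.MP_bfb583_al.TR
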