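import Mathlib
import Pool.Agent.Lib.MP_bfb583_al.TR.Quad

/-!
# Infinitely many values that are not `ℓ`-th powers
-/

namespace Pool.MP_bfb583_al.TR

open Polynomial

universe u

/-- An element that is not an `ℓ`-th power is detected by a character of order `ℓ`. -/
theorem exists_char_prime {K : Type u} [Field K] {ℓ : ℕ} (hℓ : ℓ.Prime) {d : Kˣ}
    (hd : ∀ c : K, c ^ ℓ ≠ d) :
    ∃ χ : Kˣ →* Multiplicative (ZMod ℓ), χ d ≠ 1 := by
  have hfact : Fact ℓ.Prime := ⟨hℓ⟩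
  let H : Subgroup Kˣ := (powMonoidHom ℓ : Kˣ →* Kˣ).range
  let V := Additive (Kˣ ⧸ H)
  let _ : AddCommGroup V := inferInstanceAs (AddCommGroup (Additive (Kˣ ⧸ H)))
  have hV : ∀ x : V, ℓ • x = 0 := by
    intro x
    obtain ⟨u, hu⟩ := QuotientGroup.mk_surjective (s := H) (Additive.toMul x)
    have h1 : (QuotientGroup.mk u : Kˣ ⧸ H) ^ ℓ = 1 := by
      rw [← QuotientGroup.mk_pow, QuotientGroup.eq_one_iff]
      exact ⟨u, rfl⟩
    rw [hu] at h1
    exact congrArg Additive.ofMul h1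
  let _ : Module (ZMod ℓ) V := AddCommGroup.zmodModule (n := ℓ) (G := V) hV
  have hne : (Additive.ofMul (QuotientGroup.mk d : Kˣ ⧸ H) : V) ≠ 0 := by
    intro h
    have h1 : (QuotientGroup.mk d : Kˣ ⧸ H) = 1 := h
    rw [QuotientGroup.eq_one_iff] at h1
    obtain ⟨u, hu⟩ := h1
    apply hd (u : K)
    rw [← hu]
    simp
  obtain ⟨φ, hφ⟩ : ∃ φ : Module.Dual (ZMod ℓ) V,
      φ (Additive.ofMul (QuotientGroup.mk d : Kˣ ⧸ H)) ≠ 0 := by
    by_contra h
    push Not at h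
    exact hne ((Module.forall_dual_apply_eq_zero_iff (ZMod ℓ) _).1 h)
  refine ⟨{ toFun := fun u => Multiplicative.ofAdd (φ (Additive.ofMul (QuotientGroup.mk u : Kˣ ⧸ H)))
            map_one' := ?_
            map_mul' := ?_ }, ?_⟩
  · have : (Additive.ofMul (QuotientGroup.mk (1 : Kˣ) : Kˣ ⧸ H) : V) = 0 := rfl
    rw [this, map_zero]
    rfl
  · intro u v
    have : (Additive.ofMul (QuotientGroup.mk (u * v) : Kˣ ⧸ H) : V)
        = Additive.ofMul (QuotientGroup.mk u : Kˣ ⧸ H) + Additive.ofMul (QuotientGroup.mk v : Kˣ ⧸ H) :=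
      rfl
    rw [this, map_add]
    rfl
  · exact fun h => hφ h

/-- The extension of a character of the units to the whole field. -/
noncomputable def ext {K : Type u} [Field K] {G : Type*} [CommGroup G] (χ : Kˣ →* G) :
    K →*₀ WithZero G := by
  classical
  exact
  { toFun := fun u => if h : u = 0 then 0 else (χ (Units.mk0 u h) : WithZero G)
    map_zero' := by simp
    map_one' := by simp
    map_mul' := by
      intro u v
      by_cases hu : u = 0
      · simp [hu]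
      · by_cases hv : v = 0
        · simp [hv]
        · simp [hu, hv, Units.mk0_mul] }

theorem ext_apply {K : Type u} [Field K] {G : Type*} [CommGroup G] (χ : Kˣ →* G) (u : Kˣ) :
    ext χ (u : K) = (χ u : WithZero G) := by
  classical
  have h : (u : K) ≠ 0 := u.ne_zero
  simp [ext]

theorem ext_ne_zero {K : Type u} [Field K] {G : Type*} [CommGroup G] (χ : Kˣ →* G) {u : K}
    (hu : u ≠ 0) : ext χ u ≠ 0 := by
  obtain ⟨v, rfl⟩ := (isUnit_iff_ne_zero.2 hu : IsUnit u)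
  rw [ext_apply]
  exact WithZero.coe_ne_zero

theorem ext_pow_prime {K : Type u} [Field K] {ℓ : ℕ} (χ : Kˣ →* Multiplicative (ZMod ℓ)) {u : K}
    (hu : u ≠ 0) : (ext χ u) ^ ℓ = 1 := by
  obtain ⟨v, rfl⟩ := (isUnit_iff_ne_zero.2 hu : IsUnit u)
  have h : ∀ a : Multiplicative (ZMod ℓ), a ^ ℓ = 1 := by
    intro a
    induction a with
    | ofAdd a => rw [← ofAdd_nsmul, nsmul_eq_mul, CharP.cast_eq_zero, zero_mul, ofAdd_zero]
  rw [ext_apply, ← WithZero.coe_pow, h, WithZero.coe_one]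

theorem ext_ker {K : Type u} [Field K] {G : Type*} [CommGroup G] (χ : Kˣ →* G) {u v : K}
    (h : ∃ g ∈ χ.ker, u = v * (g : K)) : ext χ u = ext χ v := by
  obtain ⟨g, hg, rfl⟩ := h
  rw [map_mul, ext_apply χ g, (MonoidHom.mem_ker).1 hg, WithZero.coe_one, mul_one]

/-- Choice of the class. -/
theorem exists_class {K : Type u} [Field K] {ℓ : ℕ} (hℓ : ℓ.Prime)
    (χ : Kˣ →* Multiplicative (ZMod ℓ)) {d : Kˣ} (hd : χ d ≠ 1) {a : ℕ} (ha : ¬ ℓ ∣ a)
    (c : WithZero (Multiplicative (ZMod ℓ))) :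
    ∃ γ : Kˣ, c * (ext χ (γ : K)) ^ a ≠ 1 := by
  by_cases hc : c = 1
  · refine ⟨d, ?_⟩
    rw [hc, one_mul]
    intro h
    have h1 := pow_gcd_eq_one.2 ⟨h, ext_pow_prime χ d.ne_zero⟩
    have h2 : Nat.gcd a ℓ = 1 :=
      Nat.Coprime.symm ((Nat.Prime.coprime_iff_not_dvd hℓ).2 ha)
    rw [h2, pow_one, ext_apply, ← WithZero.coe_one] at h1
    exact hd (WithZero.coe_injective h1)
  · refine ⟨1, ?_⟩
    rw [Units.val_one, map_one, one_pow, mul_one]
    exact hc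

/-- Values near a root of multiplicity prime to `ℓ`. -/
theorem infinite_nonpower {K : Type u} [Field K] [Infinite K] {ℓ : ℕ} (hℓ : ℓ.Prime)
    (hK : ∃ d : K, ∀ c : K, c ^ ℓ ≠ d) {D h : K[X]} {r : K} {E : Finset K} {a : K → ℕ}
    (hr : r ≠ 0) (hh : h ≠ 0) {e₁ : K} (he₁ : e₁ ∈ E) (ha : ¬ ℓ ∣ a e₁)
    (hD : ∀ x : K, D.eval x = r * (h.eval x) ^ ℓ * ∏ e ∈ E, (x - e) ^ a e) :
    {x : K | ∀ c : K, c ^ ℓ ≠ D.eval x}.Infinite := by
  classical
  have hfact : Fact ℓ.Prime := ⟨hℓ⟩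
  obtain ⟨d, hd⟩ := hK
  have hd0 : d ≠ 0 := by
    rintro rfl
    exact hd 0 (zero_pow hℓ.ne_zero)
  obtain ⟨χ, hχ⟩ := exists_char_prime hℓ (d := Units.mk0 d hd0) hd
  obtain ⟨γ, hγ⟩ := exists_class hℓ χ hχ ha
    (ext χ r * ∏ e ∈ E.erase e₁, (ext χ (e₁ - e)) ^ a e)
  have hker : χ.ker.FiniteIndex := inferInstance
  have hinf := near K χ.ker e₁ γ (E.erase e₁) (Finset.notMem_erase e₁ E)
  refine (hinf.sdiff ((h.roots.toFinset ∪ E).finite_toSet)).mono ?_
  rintro x ⟨⟨hxe₁, hx⟩, hxh⟩ c hc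
  rw [Finset.mem_coe, Finset.mem_union, not_or] at hxh
  obtain ⟨hxh, hxE⟩ := hxh
  have hhx : h.eval x ≠ 0 := by
    intro h0
    apply hxh
    rw [Multiset.mem_toFinset, mem_roots hh]
    exact h0
  have h1 : ext χ (D.eval x) = ext χ r * (∏ e ∈ E.erase e₁, (ext χ (e₁ - e)) ^ a e)
      * (ext χ (γ : K)) ^ a e₁ := by
    rw [hD x, map_mul, map_mul, map_pow, ext_pow_prime χ hhx, mul_one, map_prod,
      ← Finset.mul_prod_erase E _ he₁]
    simp only [map_pow]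
    rw [ext_ker χ hxe₁, Finset.prod_congr rfl fun e he => by rw [ext_ker χ (hx e he)]]
    rw [mul_assoc, mul_comm (∏ e ∈ E.erase e₁, (ext χ (e₁ - e)) ^ a e)]
  have hD0 : D.eval x ≠ 0 := by
    rw [hD x]
    refine mul_ne_zero (mul_ne_zero hr (pow_ne_zero _ hhx)) (Finset.prod_ne_zero_iff.2 ?_)
    intro e he
    exact pow_ne_zero _ (sub_ne_zero.2 fun h0 => hxE (h0 ▸ he))
  have hc0 : c ≠ 0 := by
    rintro rfl
    rw [zero_pow hℓ.ne_zero] at hc
    exact hD0 hc.symm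
  apply hγ
  rw [← h1, ← hc, map_pow, ext_pow_prime χ hc0]

/-- The same with an irreducible quadratic factor. -/
theorem infinite_nonpower_quad {K : Type u} [Field K] [Infinite K] {ℓ : ℕ} (hℓ : ℓ.Prime)
    (hK : ∃ d : K, ∀ c : K, c ^ ℓ ≠ d) {D h : K[X]} {r t n : K} {m : ℕ} {E : Finset K}
    {a : K → ℕ} (hr : r ≠ 0) (hh : h ≠ 0) {e₁ : K} (he₁ : e₁ ∈ E) (ha : ¬ ℓ ∣ a e₁)
    (hq : ∀ z : K, z ^ 2 - t * z + n ≠ 0)
    (hD : ∀ x : K, D.eval x
      = r * (h.eval x) ^ ℓ * (x ^ 2 - t * x + n) ^ m * ∏ e ∈ E, (x - e) ^ a e) :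
    {x : K | ∀ c : K, c ^ ℓ ≠ D.eval x}.Infinite := by
  classical
  have hfact : Fact ℓ.Prime := ⟨hℓ⟩
  intro hfin
  obtain ⟨d, hd⟩ := hK
  have hd0 : d ≠ 0 := by
    rintro rfl
    exact hd 0 (zero_pow hℓ.ne_zero)
  obtain ⟨χ, hχ⟩ := exists_char_prime hℓ (d := Units.mk0 d hd0) hd
  have hker : χ.ker.FiniteIndex := inferInstance
  -- the exceptional set
  set S : Finset K := hfin.toFinset ∪ h.roots.toFinset ∪ E with hS
  have hgood : ∀ x : K, x ∉ S →
      ext χ r * (ext χ (x ^ 2 - t * x + n)) ^ m * ∏ e ∈ E, (ext χ (x - e)) ^ a e = 1 := by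
    intro x hx
    rw [hS, Finset.mem_union, Finset.mem_union, not_or, not_or] at hx
    obtain ⟨⟨h1, h2⟩, hxE⟩ := hx
    have hpw : ∃ c : K, c ^ ℓ = D.eval x := by
      by_contra hns
      push Not at hns
      exact h1 ((Set.Finite.mem_toFinset hfin).2 hns)
    have hhx : h.eval x ≠ 0 := by
      intro h0
      apply h2
      rw [Multiset.mem_toFinset, mem_roots hh]
      exact h0
    obtain ⟨c, hc⟩ := hpw
    have hD0 : D.eval x ≠ 0 := by
      rw [hD x]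
      refine mul_ne_zero (mul_ne_zero (mul_ne_zero hr (pow_ne_zero _ hhx))
        (pow_ne_zero _ (hq x))) (Finset.prod_ne_zero_iff.2 ?_)
      intro e he
      exact pow_ne_zero _ (sub_ne_zero.2 fun h0 => hxE (h0 ▸ he))
    have hc0 : c ≠ 0 := by
      rintro rfl
      rw [zero_pow hℓ.ne_zero] at hc
      exact hD0 hc.symm
    have h3 : ext χ (D.eval x) = 1 := by
      rw [← hc, map_pow, ext_pow_prime χ hc0]
    rw [hD x, map_mul, map_mul, map_mul, map_pow, ext_pow_prime χ hhx, mul_one, map_pow,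
      map_prod] at h3
    simpa only [map_pow] using h3
  -- choice of `x`
  obtain ⟨x, hx⟩ := (S ∪ {t - e₁} ∪ (E.erase e₁).image
    (fun e => e + (e ^ 2 - t * e + n) / (e₁ - e))).exists_notMem
  rw [Finset.mem_union, Finset.mem_union, not_or, not_or, Finset.mem_singleton] at hx
  obtain ⟨⟨hxS, hxt⟩, hximg⟩ := hx
  have hxE : ∀ e ∈ E, x ≠ e := by
    rintro e he rfl
    exact hxS (by rw [hS]; exact Finset.mem_union_right _ he)
  set ρ : K → K := fun e => e + (e ^ 2 - t * e + n) / (x - e) with hρ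
  have hρe : ∀ e ∈ E, e₁ - ρ e ≠ 0 := by
    intro e he h0
    have hxe : x - e ≠ 0 := sub_ne_zero.2 (hxE e he)
    have h1 : (e₁ - e) * (x - e) = e ^ 2 - t * e + n := by
      have h2 : e₁ - e = (e ^ 2 - t * e + n) / (x - e) := by
        rw [hρ] at h0
        linear_combination h0
      rw [h2]
      field_simp
    by_cases hee : e = e₁
    · rw [hee, sub_self, zero_mul] at h1
      exact hq e₁ h1.symm
    · have hne : e₁ - e ≠ 0 := sub_ne_zero.2 (Ne.symm hee)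
      apply hximg
      refine Finset.mem_image.2 ⟨e, Finset.mem_erase.2 ⟨hee, he⟩, ?_⟩
      rw [← h1]
      field_simp
      ring
  have htx : e₁ - (t - x) ≠ 0 := by
    intro h0
    apply hxt
    linear_combination h0
  -- the constants
  set Z : ℕ := m + m + ∑ e ∈ E, a e with hZ
  obtain ⟨γ, hγ⟩ := exists_class hℓ χ hχ ha
    (ext χ r * (∏ e ∈ E.erase e₁, (ext χ (e₁ - e)) ^ a e)
      * (ext χ (e₁ - (t - x))) ^ Z * (∏ e ∈ E, (ext χ (e₁ - ρ e)) ^ a e)⁻¹)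
  have hnot : e₁ ∉ E.erase e₁ ∪ E.image ρ ∪ {t - x} := by
    rw [Finset.mem_union, Finset.mem_union, not_or, not_or, Finset.mem_singleton]
    refine ⟨⟨Finset.notMem_erase e₁ E, ?_⟩, fun h0 => htx (sub_eq_zero.2 h0)⟩
    intro hm
    obtain ⟨e, he, hee⟩ := Finset.mem_image.1 hm
    exact hρe e he (by rw [hee, sub_self])
  have hinf := near K χ.ker e₁ γ (E.erase e₁ ∪ E.image ρ ∪ {t - x}) hnot
  obtain ⟨x', ⟨hxe₁, hx'⟩, hx'B⟩ := (hinf.sdiff (S ∪ {t - x} ∪ S.image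
    (fun y => (y * (t - x) - n) / (y - x))).finite_toSet).nonempty
  rw [Finset.mem_coe, Finset.mem_union, Finset.mem_union, not_or, not_or,
    Finset.mem_singleton] at hx'B
  obtain ⟨⟨hx'S, hx't⟩, hx'img⟩ := hx'B
  have hxx : x + x' - t ≠ 0 := by
    intro h0
    apply hx't
    linear_combination h0
  have hyS : (x * x' - n) / (x + x' - t) ∉ S := by
    intro hy
    apply hx'img
    refine Finset.mem_image.2 ⟨_, hy, ?_⟩
    have hyx : (x * x' - n) / (x + x' - t) - x ≠ 0 := by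
      intro h0
      have h1 : x ^ 2 - t * x + n = 0 := by
        have h2 : (x * x' - n) / (x + x' - t) = x := sub_eq_zero.1 h0
        rw [div_eq_iff hxx] at h2
        linear_combination -h2
      exact hq x h1
    have hyw : (x * x' - n) / (x + x' - t) * (x + x' - t) = x * x' - n := div_mul_cancel₀ _ hxx
    rw [div_eq_iff hyx]
    linear_combination -hyw
  set y := (x * x' - n) / (x + x' - t) with hy
  have hqy : (x ^ 2 - t * x + n) * (x' ^ 2 - t * x' + n)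
      = (x + x' - t) ^ 2 * (y ^ 2 - t * y + n) := by
    rw [hy]
    field_simp
    ring
  have hly : ∀ e ∈ E, (y - e) * (x' - (t - x)) = (x - e) * (x' - ρ e) := by
    intro e he
    have hxe : x - e ≠ 0 := sub_ne_zero.2 (hxE e he)
    rw [hy, hρ]
    field_simp
    ring
  have hwx : x + x' - t = x' - (t - x) := by ring
  -- the three relations
  have g1 := hgood x hxS
  have g2 := hgood x' hx'S
  have g3 := hgood y hyS
  have k1 : (ext χ (x ^ 2 - t * x + n)) ^ m * (ext χ (x' ^ 2 - t * x' + n)) ^ m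
      = (ext χ (x' - (t - x))) ^ (m + m) * (ext χ (y ^ 2 - t * y + n)) ^ m := by
    rw [← mul_pow, ← map_mul, hqy, hwx, map_mul, map_pow, mul_pow, ← pow_mul, two_mul]
  have k2 : (∏ e ∈ E, (ext χ (y - e)) ^ a e) * (ext χ (x' - (t - x))) ^ (∑ e ∈ E, a e)
      = (∏ e ∈ E, (ext χ (x - e)) ^ a e) * ∏ e ∈ E, (ext χ (x' - ρ e)) ^ a e := by
    rw [← Finset.prod_pow_eq_pow_sum, ← Finset.prod_mul_distrib, ← Finset.prod_mul_distrib]
    refine Finset.prod_congr rfl fun e he => ?_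
    rw [← mul_pow, ← mul_pow, ← map_mul, ← map_mul, hly e he]
  have k3 : ∏ e ∈ E, (ext χ (x' - e)) ^ a e
      = (ext χ (γ : K)) ^ a e₁ * ∏ e ∈ E.erase e₁, (ext χ (e₁ - e)) ^ a e := by
    rw [← Finset.mul_prod_erase E _ he₁, ext_ker χ hxe₁]
    congr 1
    refine Finset.prod_congr rfl fun e he => ?_
    rw [ext_ker χ (hx' e (Finset.mem_union_left _ (Finset.mem_union_left _ he)))]
  have k4 : ∏ e ∈ E, (ext χ (x' - ρ e)) ^ a e = ∏ e ∈ E, (ext χ (e₁ - ρ e)) ^ a e := by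
    refine Finset.prod_congr rfl fun e he => ?_
    rw [ext_ker χ (hx' (ρ e) (Finset.mem_union_left _
      (Finset.mem_union_right _ (Finset.mem_image_of_mem ρ he))))]
  have k5 : ext χ (x' - (t - x)) = ext χ (e₁ - (t - x)) :=
    ext_ker χ (hx' (t - x) (Finset.mem_union_right _ (Finset.mem_singleton_self _)))
  have n1 : ext χ r ≠ 0 := ext_ne_zero χ hr
  have n2 : ∏ e ∈ E, (ext χ (e₁ - ρ e)) ^ a e ≠ 0 :=
    Finset.prod_ne_zero_iff.2 fun e he => pow_ne_zero _ (ext_ne_zero χ (hρe e he))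
  have n3 : ∏ e ∈ E, (ext χ (x - e)) ^ a e ≠ 0 :=
    Finset.prod_ne_zero_iff.2 fun e he =>
      pow_ne_zero _ (ext_ne_zero χ (sub_ne_zero.2 (hxE e he)))
  have n4 : (ext χ (y ^ 2 - t * y + n)) ^ m ≠ 0 := pow_ne_zero _ (ext_ne_zero χ (hq y))
  have n5 : ext χ (e₁ - (t - x)) ≠ 0 := ext_ne_zero χ htx
  apply hγ
  rw [k4, k5] at k2
  rw [k5] at k1
  rw [k3] at g2
  generalize hA : ∏ e ∈ E, (ext χ (x - e)) ^ a e = A at *
  generalize hB : ∏ e ∈ E, (ext χ (y - e)) ^ a e = B at *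
  generalize hC : ∏ e ∈ E.erase e₁, (ext χ (e₁ - e)) ^ a e = C' at *
  generalize hR : ∏ e ∈ E, (ext χ (e₁ - ρ e)) ^ a e = R at *
  generalize hQ1 : (ext χ (x ^ 2 - t * x + n)) ^ m = Q1 at *
  generalize hQ2 : (ext χ (x' ^ 2 - t * x' + n)) ^ m = Q2 at *
  generalize hQ3 : (ext χ (y ^ 2 - t * y + n)) ^ m = Q3 at *
  generalize hG : (ext χ (γ : K)) ^ a e₁ = G at *
  generalize hρr : ext χ r = r' at *
  generalize hww : ext χ (e₁ - (t - x)) = w at *
  rw [hZ, pow_add]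
  generalize hw1 : w ^ (m + m) = w1 at *
  generalize hw2 : w ^ (∑ e ∈ E, a e) = w2 at *
  have n6 : Q3 ≠ 0 := n4
  -- r' Q1 A = 1, r' Q2 (G C') = 1, r' Q3 B = 1, Q1 Q2 = w1 Q3, B w2 = A R
  have key : r' * C' * (w1 * w2) * G * (Q3 * A) = R * (Q3 * A) := by
    have e1 : r' * C' * (w1 * w2) * G * (Q3 * A) = (r' * Q2 * (G * C')) * Q1 * A * w2 := by
      calc r' * C' * (w1 * w2) * G * (Q3 * A) = r' * C' * w2 * G * A * (w1 * Q3) := by ac_rfl
        _ = r' * C' * w2 * G * A * (Q1 * Q2) := by rw [k1]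
        _ = (r' * Q2 * (G * C')) * Q1 * A * w2 := by ac_rfl
    rw [e1, g2, one_mul]
    have e2 : Q1 * A * w2 = (r' * Q1 * A) * w2 * r'⁻¹ := by
      calc Q1 * A * w2 = (r' * r'⁻¹) * (Q1 * A * w2) := by rw [mul_inv_cancel₀ n1, one_mul]
        _ = (r' * Q1 * A) * w2 * r'⁻¹ := by ac_rfl
    rw [e2, g1, one_mul]
    have e3 : w2 * r'⁻¹ = (r' * Q3 * B) * w2 * r'⁻¹ := by rw [g3, one_mul]
    rw [e3]
    calc r' * Q3 * B * w2 * r'⁻¹ = (r' * r'⁻¹) * Q3 * (B * w2) := by ac_rfl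
      _ = Q3 * (A * R) := by rw [mul_inv_cancel₀ n1, one_mul, k2]
      _ = R * (Q3 * A) := by ac_rfl
  have n7 : Q3 * A ≠ 0 := mul_ne_zero n6 n3
  have key2 : r' * C' * (w1 * w2) * G = R := mul_right_cancel₀ n7 key
  calc r' * C' * (w1 * w2) * R⁻¹ * G = (r' * C' * (w1 * w2) * G) * R⁻¹ := by ac_rfl
    _ = 1 := by rw [key2, mul_inv_cancel₀ n2]

end Pool.MP_bfb583_al.TR
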