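import Mathlib

/-!
# Specialization of integral elements
-/

namespace Pool.MP_bfb583_al.TR

open Polynomial

universe u v w

section

variable {K : Type u} [Field K] {M : Type v} [Field M] [Algebra K[X] M]

/-- `φ` is a specialization over the point `x`. -/
def Spec (x : K) (φ : integralClosure K[X] M →+* AlgebraicClosure K) : Prop :=
  ∀ p : K[X], φ (algebraMap K[X] (integralClosure K[X] M) p)
    = algebraMap K (AlgebraicClosure K) (p.eval x)

variable (M) in
/-- Lying over. -/
theorem exists_spec [FaithfulSMul K[X] M] (x : K) :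
    ∃ φ : integralClosure K[X] M →+* AlgebraicClosure K, Spec x φ := by
  set B := integralClosure K[X] M with hB
  have hmax : (RingHom.ker (evalRingHom x)).IsMaximal :=
    RingHom.ker_isMaximal_of_surjective _ fun c => ⟨C c, by simp⟩
  have hinj : Function.Injective (algebraMap K[X] B) := by
    intro p q h
    apply FaithfulSMul.algebraMap_injective K[X] M
    exact congrArg Subtype.val h
  obtain ⟨Q, hQmax, hQ⟩ := Ideal.exists_ideal_over_maximal_of_isIntegral (S := B)
    (RingHom.ker (evalRingHom x)) (by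
      rw [(RingHom.injective_iff_ker_eq_bot _).1 hinj]
      exact bot_le)
  let _ : Field (B ⧸ Q) := Ideal.Quotient.field Q
  let ι : K →+* B ⧸ Q := ((Ideal.Quotient.mk Q).comp (algebraMap K[X] B)).comp C
  let _ : Algebra K (B ⧸ Q) := ι.toAlgebra
  have hcomm : ∀ p : K[X], Ideal.Quotient.mk Q (algebraMap K[X] B p)
      = algebraMap K (B ⧸ Q) (p.eval x) := by
    intro p
    change _ = Ideal.Quotient.mk Q (algebraMap K[X] B (C (p.eval x)))
    rw [Ideal.Quotient.mk_eq_mk_iff_sub_mem, ← map_sub, ← Ideal.mem_comap, hQ, RingHom.mem_ker]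
    simp
  have halg : Algebra.IsAlgebraic K (B ⧸ Q) := by
    refine ⟨fun b => ?_⟩
    obtain ⟨β, rfl⟩ := Ideal.Quotient.mk_surjective b
    have hβ : IsIntegral K[X] β := Algebra.IsIntegral.isIntegral β
    refine IsIntegral.isAlgebraic ?_
    refine IsIntegral.map_of_comp_eq (evalRingHom x) (Ideal.Quotient.mk Q) ?_ hβ
    ext p
    · exact (hcomm (C p)).symm
    · exact (hcomm X).symm
  let ψ : (B ⧸ Q) →ₐ[K] AlgebraicClosure K := IsAlgClosed.lift
  refine ⟨ψ.toRingHom.comp (Ideal.Quotient.mk Q), fun p => ?_⟩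
  change ψ (Ideal.Quotient.mk Q (algebraMap K[X] B p)) = _
  rw [hcomm, ψ.commutes]

/-- Distinct elements specialize to distinct elements, for almost all points. -/
theorem spec_ne [FaithfulSMul K[X] M] (hM : Algebra.IsAlgebraic K[X] M)
    {α β : integralClosure K[X] M} (h : α ≠ β) :
    ∀ᶠ x : K in Filter.cofinite, ∀ φ : integralClosure K[X] M →+* AlgebraicClosure K,
      Spec x φ → φ α ≠ φ β := by
  have hne : (α : M) - β ≠ 0 := sub_ne_zero.2 fun h0 => h (Subtype.ext h0)
  obtain ⟨d, hd, hint⟩ := (hM.isAlgebraic (((α : M) - β)⁻¹)).exists_integral_multiple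
  have hfin : {x : K | d.eval x = 0}.Finite := by
    classical
    refine (d.roots.toFinset.finite_toSet).subset fun x hx => ?_
    rw [Finset.mem_coe, Multiset.mem_toFinset, mem_roots hd]
    exact hx
  refine (Set.Finite.eventually_cofinite_notMem hfin).mono fun x hx φ hφ h0 => ?_
  apply hx
  have h1 : (⟨d • ((α : M) - β)⁻¹, hint⟩ : integralClosure K[X] M) * (α - β)
      = algebraMap K[X] _ d := by
    apply Subtype.ext
    change (d • ((α : M) - β)⁻¹) * ((α : M) - β) = algebraMap K[X] M d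
    rw [smul_mul_assoc, inv_mul_cancel₀ hne, Algebra.smul_def, mul_one]
  have h2 := congrArg φ h1
  rw [map_mul, map_sub, h0, sub_self, mul_zero, hφ d] at h2
  have h3 : algebraMap K (AlgebraicClosure K) (d.eval x) = algebraMap K _ 0 := by
    rw [← h2, map_zero]
  exact (algebraMap K (AlgebraicClosure K)).injective h3

/-- Clearing denominators in `F[S]`. -/
theorem exists_clear {F : Type w} [Field F] [Algebra K[X] F] [IsFractionRing K[X] F]
    [Algebra F M] [IsScalarTower K[X] F M] (S : Set (integralClosure K[X] M)) {m : M}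
    (hm : m ∈ Algebra.adjoin F (Subtype.val '' S : Set M)) :
    ∃ d : K[X], d ≠ 0 ∧ ∃ b ∈ Algebra.adjoin K[X] S, (b : M) = algebraMap K[X] M d * m := by
  induction hm using Algebra.adjoin_induction with
  | mem s hs =>
    obtain ⟨b, hb, rfl⟩ := hs
    exact ⟨1, one_ne_zero, b, Algebra.subset_adjoin hb, by rw [map_one, one_mul]⟩
  | algebraMap f =>
    obtain ⟨a, b, hb, rfl⟩ := IsFractionRing.div_surjective (A := K[X]) f
    have hb0 : b ≠ 0 := nonZeroDivisors.ne_zero hb
    refine ⟨b, hb0, algebraMap K[X] _ a, Subalgebra.algebraMap_mem _ a, ?_⟩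
    change algebraMap K[X] M a = _
    have hbF : algebraMap K[X] F b ≠ 0 := fun h0 =>
      hb0 (IsFractionRing.injective K[X] F (by rw [h0, map_zero]))
    rw [IsScalarTower.algebraMap_apply K[X] F M, IsScalarTower.algebraMap_apply K[X] F M,
      ← map_mul, mul_div_cancel₀ _ hbF]
  | add m₁ m₂ _ _ h₁ h₂ =>
    obtain ⟨d₁, hd₁, b₁, hb₁, e₁⟩ := h₁
    obtain ⟨d₂, hd₂, b₂, hb₂, e₂⟩ := h₂
    refine ⟨d₁ * d₂, mul_ne_zero hd₁ hd₂, d₂ • b₁ + d₁ • b₂,
      Subalgebra.add_mem _ (Subalgebra.smul_mem _ hb₁ _) (Subalgebra.smul_mem _ hb₂ _), ?_⟩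
    change d₂ • (b₁ : M) + d₁ • (b₂ : M) = _
    rw [e₁, e₂, Algebra.smul_def, Algebra.smul_def, map_mul]
    ring
  | mul m₁ m₂ _ _ h₁ h₂ =>
    obtain ⟨d₁, hd₁, b₁, hb₁, e₁⟩ := h₁
    obtain ⟨d₂, hd₂, b₂, hb₂, e₂⟩ := h₂
    refine ⟨d₁ * d₂, mul_ne_zero hd₁ hd₂, b₁ * b₂, Subalgebra.mul_mem _ hb₁ hb₂, ?_⟩
    change (b₁ : M) * (b₂ : M) = _
    rw [e₁, e₂, map_mul]
    ring

omit [Field M] [Algebra K[X] M] in
variable [Field M] [Algebra K[X] M] in
/-- Specializing `K[X][S]`. -/
theorem spec_adjoin {x : K} {φ : integralClosure K[X] M →+* AlgebraicClosure K} (hφ : Spec x φ)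
    (S : Set (integralClosure K[X] M)) {b : integralClosure K[X] M}
    (hb : b ∈ Algebra.adjoin K[X] S) : φ b ∈ Algebra.adjoin K (φ '' S) := by
  induction hb using Algebra.adjoin_induction with
  | mem s hs => exact Algebra.subset_adjoin (Set.mem_image_of_mem φ hs)
  | algebraMap p =>
    rw [hφ p]
    exact Subalgebra.algebraMap_mem _ _
  | add b₁ b₂ _ _ h₁ h₂ =>
    rw [map_add]
    exact Subalgebra.add_mem _ h₁ h₂
  | mul b₁ b₂ _ _ h₁ h₂ =>
    rw [map_mul]
    exact Subalgebra.mul_mem _ h₁ h₂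

/-- Elements of `F[S]` specialize to elements of `K[φ(S)]`, for almost all points. -/
theorem spec_mem {F : Type w} [Field F] [Algebra K[X] F] [IsFractionRing K[X] F]
    [Algebra F M] [IsScalarTower K[X] F M] (S : Set (integralClosure K[X] M))
    {m : integralClosure K[X] M}
    (hm : (m : M) ∈ Algebra.adjoin F (Subtype.val '' S : Set M)) :
    ∀ᶠ x : K in Filter.cofinite, ∀ φ : integralClosure K[X] M →+* AlgebraicClosure K,
      Spec x φ → φ m ∈ Algebra.adjoin K (φ '' S) := by
  obtain ⟨d, hd, b, hb, e⟩ := exists_clear (F := F) S hm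
  have hfin : {x : K | d.eval x = 0}.Finite := by
    classical
    refine (d.roots.toFinset.finite_toSet).subset fun x hx => ?_
    rw [Finset.mem_coe, Multiset.mem_toFinset, mem_roots hd]
    exact hx
  refine (Set.Finite.eventually_cofinite_notMem hfin).mono fun x hx φ hφ => ?_
  have h1 : b = algebraMap K[X] _ d * m := Subtype.ext e
  have h2 := spec_adjoin hφ S hb
  rw [h1, map_mul, hφ d] at h2
  have hx0 : d.eval x ≠ 0 := hx
  have h3 := Subalgebra.smul_mem _ h2 (d.eval x)⁻¹
  rwa [Algebra.smul_def, ← mul_assoc, ← map_mul, inv_mul_cancel₀ hx0, map_one, one_mul] at h3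

end

end Pool.MP_bfb583_al.TR
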