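import Mathlib
import Pool.Agent.Lib.MP_bfb583_al.TR.FrobGroup
import Pool.Agent.Lib.MP_bfb583_al.TR.Special
import Pool.Agent.Lib.MP_bfb583_al.TR.Power

/-!
# Frobenius covers of the line
-/

namespace Pool.MP_bfb583_al.TR

open Polynomial

universe u v w

section

variable {K : Type u} [Field K] {F : Type w} [Field F] [Algebra K[X] F] [IsFractionRing K[X] F]
  {M : Type v} [Field M] [Algebra K[X] M] [Algebra F M] [IsScalarTower K[X] F M]

omit [IsFractionRing K[X] F] in
/-- The roots of a monic polynomial, as integral elements. -/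
theorem exists_integral_roots (P : K[X][X]) (hP : P.Monic)
    (hsep : (P.map (algebraMap K[X] F)).Separable)
    (hsplit : ((P.map (algebraMap K[X] F)).map (algebraMap F M)).Splits) :
    ∃ R : Finset (integralClosure K[X] M),
      P.map (algebraMap K[X] (integralClosure K[X] M)) = ∏ b ∈ R, (X - C b) := by
  classical
  have hcomp : (P.map (algebraMap K[X] F)).map (algebraMap F M)
      = P.map (algebraMap K[X] M) := by
    rw [Polynomial.map_map, ← IsScalarTower.algebraMap_eq]
  set PM := P.map (algebraMap K[X] M) with hPM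
  have hPMm : PM.Monic := hP.map _
  have hsepM : PM.Separable := by
    rw [← hcomp]
    exact hsep.map
  have hsplitM : PM.Splits := by rwa [← hcomp]
  have hprod : PM = ∏ α ∈ PM.roots.toFinset, (X - C α) := by
    have h1 := hsplitM.eq_prod_roots_of_monic hPMm
    rw [Finset.prod, Multiset.toFinset_val, (nodup_roots hsepM).dedup]
    exact h1
  have hint : ∀ α ∈ PM.roots.toFinset, IsIntegral K[X] α := by
    intro α hα
    rw [Multiset.mem_toFinset, mem_roots hPMm.ne_zero, IsRoot.def, hPM, eval_map] at hα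
    exact ⟨P, hP, hα⟩
  set lift : {α // α ∈ PM.roots.toFinset} → integralClosure K[X] M :=
    fun α => ⟨α.1, hint α.1 α.2⟩ with hlift
  have hval : ∀ α, algebraMap (integralClosure K[X] M) M (lift α) = α.1 := fun _ => rfl
  have hinj : Function.Injective lift := by
    intro α β h
    have h1 := congrArg (algebraMap (integralClosure K[X] M) M) h
    rw [hval, hval] at h1
    exact Subtype.ext h1
  refine ⟨PM.roots.toFinset.attach.image lift, ?_⟩
  rw [Finset.prod_image fun a _ b _ h => hinj h]
  apply Polynomial.map_injective (algebraMap (integralClosure K[X] M) M) Subtype.val_injective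
  rw [Polynomial.map_map, ← IsScalarTower.algebraMap_eq, ← hPM, Polynomial.map_prod]
  simp only [Polynomial.map_sub, Polynomial.map_X, Polynomial.map_C, hval]
  exact hprod.trans (Finset.prod_attach _ _).symm

/-- The values of a specialization are all roots of the specialized polynomial. -/
theorem spec_prod {P : K[X][X]} {R : Finset (integralClosure K[X] M)}
    (hR : P.map (algebraMap K[X] (integralClosure K[X] M)) = ∏ b ∈ R, (X - C b)) {x : K}
    {φ : integralClosure K[X] M →+* AlgebraicClosure K} (hφ : Spec x φ) :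
    (P.map (evalRingHom x)).map (algebraMap K (AlgebraicClosure K))
      = ∏ b ∈ R, (X - C (φ b)) := by
  have h1 := congrArg (Polynomial.map φ) hR
  rw [Polynomial.map_map, Polynomial.map_prod] at h1
  simp only [Polynomial.map_sub, Polynomial.map_X, Polynomial.map_C] at h1
  rw [← h1, Polynomial.map_map]
  congr 1
  ext p
  · exact (hφ (C p)).symm
  · exact (hφ X).symm

/-- The root theorem. -/
theorem frobenius_root {ℓ k : ℕ} (hℓ : ℓ.Prime) [FaithfulSMul K[X] M]
    (hM : Algebra.IsAlgebraic K[X] M)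
    (P : K[X][X]) (hP : P.Monic) {R : Finset (integralClosure K[X] M)}
    (hR : P.map (algebraMap K[X] (integralClosure K[X] M)) = ∏ b ∈ R, (X - C b))
    (hgen : Algebra.adjoin F (Subtype.val '' (R : Set (integralClosure K[X] M)) : Set M) = ⊤)
    (z : M)
    (h2 : ∀ A ⊆ R, A.card = k →
      z ∈ Algebra.adjoin F (Subtype.val '' (A : Set (integralClosure K[X] M)) : Set M))
    (hn : ¬ ℓ ∣ P.natDegree) (δ : K[X]) (hz : z ^ ℓ = algebraMap K[X] M δ)
    (hF : NormalSylow ℓ k K) :
    ∀ᶠ x : K in Filter.cofinite, (∀ c : K, c ^ ℓ ≠ δ.eval x) → ∃ y : K, P.evalEval x y = 0 := by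
  classical
  have hzint : IsIntegral K[X] z := by
    refine IsIntegral.of_pow hℓ.pos ?_
    rw [hz]
    exact isIntegral_algebraMap
  set zB : integralClosure K[X] M := ⟨z, hzint⟩ with hzB
  have hzB' : zB ^ ℓ = algebraMap K[X] _ δ := Subtype.ext hz
  have E1 : ∀ᶠ x : K in Filter.cofinite, ∀ b ∈ R, ∀ b' ∈ R, b ≠ b' →
      ∀ φ : integralClosure K[X] M →+* AlgebraicClosure K, Spec x φ → φ b ≠ φ b' := by
    rw [Filter.eventually_all_finset]
    intro b _
    rw [Filter.eventually_all_finset]
    intro b' _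
    by_cases h : b = b'
    · exact Filter.Eventually.of_forall fun x hne => absurd h hne
    · exact (spec_ne hM h).mono fun x hx _ => hx
  have E2 : ∀ᶠ x : K in Filter.cofinite, ∀ A ∈ R.powersetCard k,
      ∀ φ : integralClosure K[X] M →+* AlgebraicClosure K, Spec x φ →
        φ zB ∈ Algebra.adjoin K (φ '' (A : Set (integralClosure K[X] M))) := by
    rw [Filter.eventually_all_finset]
    intro A hA
    rw [Finset.mem_powersetCard] at hA
    exact spec_mem (F := F) (A : Set (integralClosure K[X] M)) (m := zB) (h2 A hA.1 hA.2)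
  have E3 : ∀ᶠ x : K in Filter.cofinite,
      ∀ φ : integralClosure K[X] M →+* AlgebraicClosure K, Spec x φ →
        φ zB ∈ Algebra.adjoin K (φ '' (R : Set (integralClosure K[X] M))) := by
    refine spec_mem (F := F) _ ?_
    rw [hgen]
    exact Algebra.mem_top
  filter_upwards [E1, E2, E3] with x e1 e2 e3 hx
  obtain ⟨φ, hφ⟩ := exists_spec M x
  set Q := P.map (evalRingHom x) with hQ
  have hQm : Q.Monic := hP.map _
  have hQdeg : Q.natDegree = P.natDegree := hP.natDegree_map _
  have hQprod := spec_prod hR hφ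
  rw [← hQ] at hQprod
  have hQsep : Q.Separable := by
    rw [← separable_map (algebraMap K (AlgebraicClosure K)), hQprod,
      separable_prod_X_sub_C_iff']
    intro b hb b' hb' h
    by_contra hne
    exact e1 b hb b' hb' hne φ hφ h
  have hQsplit : (Q.map (algebraMap K (AlgebraicClosure K))).Splits :=
    IsAlgClosed.splits _
  have hroot : ∀ ρ : AlgebraicClosure K, ρ ∈ Q.rootSet (AlgebraicClosure K) ↔
      ∃ b ∈ R, φ b = ρ := by
    intro ρ
    rw [mem_rootSet_of_ne hQm.ne_zero, aeval_def, ← eval_map, hQprod, eval_prod,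
      Finset.prod_eq_zero_iff]
    constructor
    · rintro ⟨b, hb, h⟩
      refine ⟨b, hb, ?_⟩
      rw [eval_sub, eval_X, eval_C, sub_eq_zero] at h
      exact h.symm
    · rintro ⟨b, hb, rfl⟩
      exact ⟨b, hb, by rw [eval_sub, eval_X, eval_C, sub_self]⟩
  set L := IntermediateField.adjoin K (Q.rootSet (AlgebraicClosure K)) with hL
  have hsf : Q.IsSplittingField K L := IntermediateField.adjoin_rootSet_isSplittingField hQsplit
  have hfd : FiniteDimensional K L := IsSplittingField.finiteDimensional L Q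
  have hgal : IsGalois K L := IsGalois.of_separable_splitting_field (p := Q) hQsep
  have hmemL : ∀ b ∈ R, φ b ∈ L := fun b hb =>
    IntermediateField.subset_adjoin K _ ((hroot _).2 ⟨b, hb, rfl⟩)
  -- the set of roots in `L`
  set Ω : Finset L := (Q.rootSet L).toFinset with hΩ
  have hΩmem : ∀ ρ : L, ρ ∈ Ω ↔ ∃ b ∈ R, φ b = (ρ : AlgebraicClosure K) := by
    intro ρ
    rw [← hroot, hΩ, Set.mem_toFinset, mem_rootSet_of_ne hQm.ne_zero,
      mem_rootSet_of_ne hQm.ne_zero]
    have h1 : aeval (ρ : AlgebraicClosure K) Q = ((aeval ρ Q : L) : AlgebraicClosure K) := by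
      exact (aeval_algebraMap_apply (AlgebraicClosure K) ρ Q)
    rw [h1]
    exact (map_eq_zero (algebraMap L (AlgebraicClosure K))).symm
  have hΩcard : Ω.card = P.natDegree := by
    rw [← hQdeg, ← card_rootSet_eq_natDegree hQsep hsf.splits, hΩ, Set.toFinset_card]
  have hst : ∀ σ : L ≃ₐ[K] L, ∀ ρ ∈ Ω, σ ρ ∈ Ω := by
    intro σ ρ hρ
    rw [hΩ, Set.mem_toFinset, mem_rootSet_of_ne hQm.ne_zero] at hρ ⊢
    rw [← AlgEquiv.coe_toAlgHom, aeval_algHom_apply, hρ, map_zero]
  -- the resolvent element
  have hle : Algebra.adjoin K (φ '' (R : Set (integralClosure K[X] M))) ≤ L.toSubalgebra := by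
    rw [Algebra.adjoin_le_iff]
    rintro _ ⟨c, hc, rfl⟩
    exact hmemL c hc
  set wL : L := ⟨φ zB, hle (e3 φ hφ)⟩ with hwL
  have hw : wL ^ ℓ = algebraMap K L (δ.eval x) := by
    apply Subtype.ext
    change (φ zB) ^ ℓ = algebraMap K (AlgebraicClosure K) (δ.eval x)
    rw [← map_pow, hzB', hφ]
  have hirr : Irreducible (X ^ ℓ - C (δ.eval x)) := X_pow_sub_C_irreducible_of_prime hℓ hx
  have hmin : minpoly K wL = X ^ ℓ - C (δ.eval x) := by
    refine (minpoly.eq_of_irreducible_of_monic hirr ?_ ?_).symm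
    · rw [map_sub, map_pow, aeval_X, aeval_C, hw, sub_self]
    · exact monic_X_pow_sub_C _ hℓ.ne_zero
  have hfin : Module.finrank K (IntermediateField.adjoin K {wL}) = ℓ := by
    rw [IntermediateField.adjoin.finrank (Algebra.IsIntegral.isIntegral wL), hmin,
      natDegree_X_pow_sub_C]
  -- `k` fixed roots
  have htwo : ∀ σ : L ≃ₐ[K] L, ∀ A' ⊆ Ω, A'.card = k → (∀ ρ ∈ A', σ ρ = ρ) →
      σ wL = wL := by
    intro σ A' hA' hcard hσ
    set A : Finset (integralClosure K[X] M) :=
      R.filter fun b => φ b ∈ A'.image (fun ρ : L => (ρ : AlgebraicClosure K)) with hA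
    have himage : A.image φ = A'.image (fun ρ : L => (ρ : AlgebraicClosure K)) := by
      ext τ
      constructor
      · intro hτ
        obtain ⟨b, hb, rfl⟩ := Finset.mem_image.1 hτ
        exact (Finset.mem_filter.1 hb).2
      · intro hτ
        obtain ⟨ρ, hρ, rfl⟩ := Finset.mem_image.1 hτ
        obtain ⟨b, hb, hbρ⟩ := (hΩmem ρ).1 (hA' hρ)
        refine Finset.mem_image.2 ⟨b, Finset.mem_filter.2 ⟨hb, ?_⟩, hbρ⟩
        rw [hbρ]
        exact Finset.mem_image.2 ⟨ρ, hρ, rfl⟩
    have hAcard : A.card = k := by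
      have h1 : (A.image φ).card = A.card := by
        refine Finset.card_image_of_injOn ?_
        intro b hb b' hb' h
        by_contra hne
        exact e1 b (Finset.mem_filter.1 hb).1 b' (Finset.mem_filter.1 hb').1 hne φ hφ h
      rw [← h1, himage, Finset.card_image_of_injective _ Subtype.val_injective, hcard]
    set S : Subalgebra K L := AlgHom.equalizer (σ : L →ₐ[K] L) (AlgHom.id K L) with hS
    have hSle : Algebra.adjoin K (φ '' (A : Set (integralClosure K[X] M))) ≤ S.map L.val := by
      rw [Algebra.adjoin_le_iff]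
      rintro _ ⟨c, hc, rfl⟩
      obtain ⟨ρ, hρ, hρc⟩ := Finset.mem_image.1 (Finset.mem_filter.1 hc).2
      exact ⟨ρ, hσ ρ hρ, hρc⟩
    obtain ⟨τ', hτ', h4⟩ := hSle (e2 A (Finset.mem_powersetCard.2
      ⟨Finset.filter_subset _ _, hAcard⟩) φ hφ)
    have h5 : τ' = wL := Subtype.ext h4
    rw [← h5]
    exact hτ'
  obtain ⟨ρ, hρ, y, hy⟩ := exists_fixed hℓ Ω hst (by rw [hΩcard]; exact hn) wL hfin
    hF htwo
  refine ⟨y, ?_⟩
  rw [hΩ, Set.mem_toFinset, mem_rootSet_of_ne hQm.ne_zero, ← hy, aeval_algebraMap_apply,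
    map_eq_zero] at hρ
  rw [← map_evalRingHom_eval, ← hQ]
  rw [coe_aeval_eq_eval] at hρ
  exact hρ

end

end Pool.MP_bfb583_al.TR
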