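import Mathlib
import Pool.Agent.Lib.MP_bfb583_al.TR.Frob

/-!
# Points on Frobenius covers of the line
-/

namespace Pool.MP_bfb583_al.TR

open Polynomial

universe u v w

/-- Non-powers among the values of a polynomial with linear factors and at most one irreducible
quadratic factor. -/
theorem infinite_nonpower_gen {K : Type u} [Field K] [Infinite K] {ℓ : ℕ} (hℓ : ℓ.Prime)
    (hK : ∃ d : K, ∀ c : K, c ^ ℓ ≠ d) {δ h q : K[X]} {r : K} {m : ℕ} {E : Finset K}
    {a : K → ℕ} (hd : ∀ g : K[X], g ^ ℓ ≠ δ)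
    (hq : q = 1 ∨ (Irreducible q ∧ q.natDegree = 2 ∧ ∃ e ∈ E, ¬ ℓ ∣ a e))
    (hδ : δ = C r * h ^ ℓ * q ^ m * ∏ e ∈ E, (X - C e) ^ a e) :
    {x : K | ∀ c : K, c ^ ℓ ≠ δ.eval x}.Infinite := by
  classical
  have hr : r ≠ 0 := by
    rintro rfl
    exact hd 0 (by rw [hδ, C_0, zero_mul, zero_mul, zero_mul, zero_pow hℓ.ne_zero])
  have hh : h ≠ 0 := by
    rintro rfl
    exact hd 0 (by rw [hδ, zero_pow hℓ.ne_zero, mul_zero, zero_mul, zero_mul])
  by_cases hE : ∃ e ∈ E, ¬ ℓ ∣ a e
  · obtain ⟨e₁, he₁, ha⟩ := hE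
    rcases hq with rfl | ⟨hqi, hq2, -⟩
    · refine infinite_nonpower hℓ hK hr hh he₁ ha fun x => ?_
      rw [hδ, one_pow, mul_one, eval_mul, eval_mul, eval_C, eval_pow, eval_prod]
      simp only [eval_sub, eval_X, eval_C, eval_pow]
    · have hq0 : q ≠ 0 := hqi.ne_zero
      have hl : q.coeff 2 ≠ 0 := by
        rw [← hq2]
        exact leadingCoeff_ne_zero.2 hq0
      have hroot : ∀ z : K, q.eval z ≠ 0 := by
        intro z hz
        have h1 := degree_eq_one_of_irreducible_of_root hqi (x := z) hz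
        rw [degree_eq_natDegree hq0, hq2] at h1
        exact absurd h1 (by decide)
      have heval : ∀ z : K, q.eval z = q.coeff 2 * (z ^ 2 - (-(q.coeff 1 / q.coeff 2)) * z
          + q.coeff 0 / q.coeff 2) := by
        intro z
        rw [eval_eq_sum_range, hq2]
        simp only [Finset.sum_range_succ, Finset.sum_range_zero]
        field_simp
        ring
      refine infinite_nonpower_quad hℓ hK (r := r * (q.coeff 2) ^ m)
        (mul_ne_zero hr (pow_ne_zero _ hl)) hh he₁ ha
        (t := -(q.coeff 1 / q.coeff 2)) (n := q.coeff 0 / q.coeff 2) (m := m) ?_ ?_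
      · intro z hz
        apply hroot z
        rw [heval, hz, mul_zero]
      · intro x
        rw [hδ, eval_mul, eval_mul, eval_mul, eval_C, eval_pow, eval_pow, eval_prod, heval x]
        simp only [eval_sub, eval_X, eval_C, eval_pow]
        rw [mul_pow]
        ring
  · push Not at hE
    have hq1 : q = 1 := by
      rcases hq with h1 | ⟨-, -, e, he, hne⟩
      · exact h1
      · exact absurd (hE e he) hne
    choose! b hb using hE
    have hδ' : δ = C r * (h * ∏ e ∈ E, (X - C e) ^ b e) ^ ℓ := by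
      rw [hδ, hq1, one_pow, mul_one, mul_pow, ← mul_assoc, ← Finset.prod_pow]
      congr 1
      refine Finset.prod_congr rfl fun e he => ?_
      rw [← pow_mul, hb e he, mul_comm]
    have hr' : ∀ c : K, c ^ ℓ ≠ r := by
      intro c hc
      apply hd (C c * (h * ∏ e ∈ E, (X - C e) ^ b e))
      rw [mul_pow, ← C_pow, hc, ← hδ']
    set g := h * ∏ e ∈ E, (X - C e) ^ b e with hg
    have hg0 : g ≠ 0 := mul_ne_zero hh
      (Finset.prod_ne_zero_iff.2 fun e _ => pow_ne_zero _ (X_sub_C_ne_zero e))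
    refine (Set.infinite_univ.sdiff (g.roots.toFinset.finite_toSet)).mono ?_
    rintro x ⟨-, hxg⟩ c hc
    have hgx : g.eval x ≠ 0 := by
      intro h0
      apply hxg
      rw [Finset.mem_coe, Multiset.mem_toFinset, mem_roots hg0]
      exact h0
    apply hr' (c / g.eval x)
    rw [div_pow, hc, hδ', eval_mul, eval_C, eval_pow]
    field_simp

/-- Roots on Frobenius covers, over almost all points with non-power resolvent value. -/
theorem frobenius_fibres {K : Type u} [Field K] {F : Type w} [Field F] [Algebra K[X] F]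
    [IsFractionRing K[X] F] {M : Type v} [Field M] [Algebra K[X] M] [Algebra F M]
    [IsScalarTower K[X] F M] {ℓ k : ℕ} (hℓ : ℓ.Prime) (P : K[X][X]) (hP : P.Monic)
    (hsep : (P.map (algebraMap K[X] F)).Separable)
    (hsf : (P.map (algebraMap K[X] F)).IsSplittingField F M)
    (z : M)
    (h2 : ∀ A : Finset M, A.card = k → (∀ α ∈ A, aeval α (P.map (algebraMap K[X] F)) = 0) →
      z ∈ IntermediateField.adjoin F (A : Set M))
    (hn : ¬ ℓ ∣ P.natDegree) (hF : NormalSylow ℓ k K) (δ : K[X])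
    (hz : z ^ ℓ = algebraMap K[X] M δ) :
    ∀ᶠ x : K in Filter.cofinite, (∀ c : K, c ^ ℓ ≠ δ.eval x) → ∃ y : K, P.evalEval x y = 0 := by
  classical
  have hPFm : (P.map (algebraMap K[X] F)).Monic := hP.map _
  have hfd : FiniteDimensional F M :=
    IsSplittingField.finiteDimensional M (P.map (algebraMap K[X] F))
  have halg : Algebra.IsAlgebraic F M := inferInstance
  have hM : Algebra.IsAlgebraic K[X] M :=
    (IsFractionRing.comap_isAlgebraic_iff (A := K[X]) (K := F)).2 halg
  have hfaith : FaithfulSMul K[X] M := by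
    rw [faithfulSMul_iff_algebraMap_injective, IsScalarTower.algebraMap_eq K[X] F M]
    exact (algebraMap F M).injective.comp (IsFractionRing.injective K[X] F)
  obtain ⟨R, hR⟩ := exists_integral_roots (M := M) P hP hsep hsf.splits
  have hRM : (P.map (algebraMap K[X] F)).map (algebraMap F M)
      = ∏ b ∈ R, (X - C (b : M)) := by
    have h1 := congrArg (Polynomial.map (algebraMap (integralClosure K[X] M) M)) hR
    rw [Polynomial.map_map, ← IsScalarTower.algebraMap_eq, Polynomial.map_prod] at h1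
    simp only [Polynomial.map_sub, Polynomial.map_X, Polynomial.map_C] at h1
    rw [Polynomial.map_map, ← IsScalarTower.algebraMap_eq, h1]
    rfl
  have hroot : ∀ b ∈ R, aeval (b : M) (P.map (algebraMap K[X] F)) = 0 := by
    intro b hb
    rw [aeval_def, ← eval_map, hRM, eval_prod, Finset.prod_eq_zero_iff]
    exact ⟨b, hb, by rw [eval_sub, eval_X, eval_C, sub_self]⟩
  have hroot' : (P.map (algebraMap K[X] F)).rootSet M
      = Subtype.val '' (R : Set (integralClosure K[X] M)) := by
    ext α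
    rw [mem_rootSet_of_ne hPFm.ne_zero]
    constructor
    · intro hα
      rw [aeval_def, ← eval_map, hRM, eval_prod, Finset.prod_eq_zero_iff] at hα
      obtain ⟨b, hb, h1⟩ := hα
      rw [eval_sub, eval_X, eval_C, sub_eq_zero] at h1
      exact ⟨b, hb, h1.symm⟩
    · rintro ⟨b, hb, rfl⟩
      exact hroot b hb
  refine frobenius_root (F := F) hℓ hM P hP hR
    (by rw [← hroot']; exact hsf.adjoin_rootSet) z ?_ hn δ hz hF
  intro A hA hAcard
  have h3 := h2 (A.image Subtype.val)
    (by rw [Finset.card_image_of_injective _ Subtype.val_injective, hAcard])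
    (by
      intro α hα
      obtain ⟨b, hb, rfl⟩ := Finset.mem_image.1 hα
      exact hroot b (hA hb))
  have h4 := IntermediateField.adjoin_toSubalgebra (F := F)
    ((A.image Subtype.val : Finset M) : Set M)
  rw [Finset.coe_image] at h3 h4
  rw [← h4]
  exact h3

/-- Points on Frobenius covers. -/
theorem frobenius_points {K : Type u} [Field K] [Infinite K] {ℓ k : ℕ} (hℓ : ℓ.Prime)
    (hK : ∃ d : K, ∀ c : K, c ^ ℓ ≠ d) (P : K[X][X]) (hP : P.Monic)
    (hsep : (P.map (algebraMap K[X] (RatFunc K))).Separable)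
    (z : (P.map (algebraMap K[X] (RatFunc K))).SplittingField)
    (h2 : ∀ A : Finset (P.map (algebraMap K[X] (RatFunc K))).SplittingField, A.card = k →
      (∀ α ∈ A, aeval α (P.map (algebraMap K[X] (RatFunc K))) = 0) →
      z ∈ IntermediateField.adjoin (RatFunc K)
        (A : Set (P.map (algebraMap K[X] (RatFunc K))).SplittingField))
    (hn : ¬ ℓ ∣ P.natDegree) (hF : NormalSylow ℓ k K)
    {δ h q : K[X]} {r : K} {m : ℕ} {E : Finset K} {a : K → ℕ}
    (hz : z ^ ℓ = algebraMap K[X] _ δ) (hd : ∀ g : K[X], g ^ ℓ ≠ δ)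
    (hq : q = 1 ∨ (Irreducible q ∧ q.natDegree = 2 ∧ ∃ e ∈ E, ¬ ℓ ∣ a e))
    (hδ : δ = C r * h ^ ℓ * q ^ m * ∏ e ∈ E, (X - C e) ^ a e) :
    {p : K × K | (∀ c : K, c ^ ℓ ≠ δ.eval p.1) ∧ P.evalEval p.1 p.2 = 0}.Infinite := by
  have hev := frobenius_fibres (F := RatFunc K) hℓ P hP hsep
    (Polynomial.IsSplittingField.splittingField _) z h2 hn hF δ hz
  have hinf := infinite_nonpower_gen hℓ hK hd hq hδ
  rw [Filter.eventually_cofinite] at hev
  refine Set.Infinite.of_image Prod.fst ((hinf.sdiff hev).mono ?_)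
  rintro x ⟨hx, hx'⟩
  have h5 : (∀ c : K, c ^ ℓ ≠ δ.eval x) → ∃ y : K, P.evalEval x y = 0 := by
    by_contra hcon
    exact hx' hcon
  obtain ⟨y, hy⟩ := h5 hx
  exact ⟨(x, y), ⟨hx, hy⟩, rfl⟩

end Pool.MP_bfb583_al.TR
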