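import Mathlib
import Pool.Agent.Lib.MP_bfb583_al.TR.Cubic
import Pool.Agent.Lib.MP_bfb583_al.TR.Discr

/-!
# Irreducible factors of odd degree
-/

namespace Pool.MP_bfb583_al.TR

open Polynomial

universe u

/-- Every polynomial of odd degree has an irreducible factor of odd degree. -/
theorem exists_irreducible_factor_odd {K : Type u} [Field K] : ∀ (m : ℕ) (Q : K[X]),
    Q.natDegree = m → Odd m → ∃ A : K[X], Irreducible A ∧ A ∣ Q ∧ Odd A.natDegree := by
  intro m
  induction m using Nat.strong_induction_on with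
  | _ m ih =>
    intro Q hQ hm
    have hm0 : 0 < m := hm.pos
    have hQ0 : Q ≠ 0 := by
      rintro rfl
      simp at hQ
      omega
    by_cases hirr : Irreducible Q
    · exact ⟨Q, hirr, dvd_rfl, hQ ▸ hm⟩
    · have hnu : ¬ IsUnit Q := fun h => by
        have := natDegree_eq_zero_of_isUnit h
        omega
      rw [irreducible_iff, not_and, not_forall] at hirr
      obtain ⟨A, hA⟩ := hirr hnu
      push Not at hA
      obtain ⟨B, hAB, hAu, hBu⟩ := hA
      have hA0 : A ≠ 0 := fun h => hQ0 (by rw [hAB, h, zero_mul])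
      have hB0 : B ≠ 0 := fun h => hQ0 (by rw [hAB, h, mul_zero])
      have hdeg : A.natDegree + B.natDegree = m := by
        rw [← natDegree_mul hA0 hB0, ← hAB, hQ]
      have hApos : A.natDegree ≠ 0 := fun h => hAu (by
        obtain ⟨c, hc⟩ := natDegree_eq_zero.1 h
        rw [← hc]
        exact isUnit_C.2 (isUnit_iff_ne_zero.2 (fun h0 => hA0 (by rw [← hc, h0, C_0]))))
      have hBpos : B.natDegree ≠ 0 := fun h => hBu (by
        obtain ⟨c, hc⟩ := natDegree_eq_zero.1 h
        rw [← hc]
        exact isUnit_C.2 (isUnit_iff_ne_zero.2 (fun h0 => hB0 (by rw [← hc, h0, C_0]))))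
      rcases Nat.even_or_odd A.natDegree with hAe | hAo
      · have hBo : Odd B.natDegree := by
          rw [← hdeg] at hm
          exact (Nat.odd_add'.1 hm).2 hAe
        obtain ⟨D, hD, hDB, hDo⟩ := ih B.natDegree (by omega) B rfl hBo
        exact ⟨D, hD, hDB.trans (hAB ▸ dvd_mul_left B A), hDo⟩
      · obtain ⟨D, hD, hDA, hDo⟩ := ih A.natDegree (by omega) A rfl hAo
        exact ⟨D, hD, hDA.trans (hAB ▸ dvd_mul_right A B), hDo⟩

end Pool.MP_bfb583_al.TR
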