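import Mathlib
import Pool.Agent.Lib.MP_bfb583_al.TR.Odd

/-!
# Fields all of whose extensions of a given prime degree are normal
-/

namespace Pool.MP_bfb583_al.TR

open Polynomial

universe u

/-- Every extension of `K` of degree `n` is normal. -/
def NormalInDegree (n : ℕ) (K : Type u) [Field K] : Prop :=
  ∀ (L : Type u) [Field L] [Algebra K L], Module.finrank K L = n → Normal K L

/-- Pronilpotent Galois groups: extensions of prime degree are normal. -/
theorem normalInDegree_of_nilpotent {K : Type u} [Field K] [CharZero K] (hK : GaloisNilpotent K)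
    {p : ℕ} (hp : p.Prime) : NormalInDegree p K := by
  intro L _ _ hL
  have hfin : FiniteDimensional K L := FiniteDimensional.of_finrank_pos (hL ▸ hp.pos)
  let Ω := AlgebraicClosure L
  let M : IntermediateField K Ω := IntermediateField.normalClosure K L Ω
  have hnorm : Normal K M := inferInstance
  have hMfin : FiniteDimensional K M := inferInstance
  have hgal : IsGalois K M := ⟨⟩
  have hnil : Group.IsNilpotent (M ≃ₐ[K] M) := hK M
  let φ : L →ₐ[K] M := IsScalarTower.toAlgHom K L M
  let N : IntermediateField K M := φ.fieldRange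
  have e : L ≃ₐ[K] N := AlgEquiv.ofInjectiveField φ
  have hN : Module.finrank K N = p := by
    rw [← hL]
    exact (e.toLinearEquiv.finrank_eq).symm
  have hi : N.fixingSubgroup.index = p := by
    rw [← IntermediateField.finrank_eq_fixingSubgroup_index, hN]
  have hn : N.fixingSubgroup.Normal := normal_of_prime_index _ hp hi
  have hgalN : IsGalois K N := (InfiniteGalois.normal_iff_isGalois N).1 hn
  have hNn : Normal K N := hgalN.to_normal
  exact Normal.of_algEquiv e.symm

/-- The root lemma in prime degree. -/
theorem prime_root {K : Type u} [Field K] {n : ℕ} (hn : n.Prime) (hn2 : n ≠ 2)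
    (hA : NormalInDegree n K) (hS : NoSmallOddPrime n K) {Q : K[X]} (hQ : Q.natDegree = n)
    (hd : ¬ IsSquare Q.discr) : ∃ y, Q.eval y = 0 := by
  have hodd : Odd n := hn.odd_of_ne_two hn2
  have hpos : 0 < Q.natDegree := hQ ▸ hn.pos
  have hQ0 : Q ≠ 0 := by
    rintro rfl
    simp at hpos
  have hd0 : Q.discr ≠ 0 := fun h => hd (h ▸ ⟨0, by simp⟩)
  have hsep : Q.Separable := separable_of_discr_ne_zero hpos hd0
  obtain ⟨A, hA', hAQ, hAo⟩ := exists_irreducible_factor_odd n Q hQ hodd
  by_contra hno
  push Not at hno
  have hA1 : A.natDegree ≠ 1 := by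
    intro h
    obtain ⟨y, hy⟩ := exists_root_of_degree_eq_one (p := A)
      (by rw [degree_eq_natDegree hA'.ne_zero, h]; rfl)
    exact hno y (eval_eq_zero_of_dvd_of_eval_eq_zero hAQ hy)
  let M := Q.SplittingField
  have : IsGalois K M := IsGalois.of_separable_splitting_field hsep
  have hsplitQ : (Q.map (algebraMap K M)).Splits := SplittingField.splits Q
  have hsplit : (A.map (algebraMap K M)).Splits :=
    hsplitQ.of_dvd ((Polynomial.map_ne_zero_iff (algebraMap K M).injective).2 hQ0)
      (Polynomial.map_dvd _ hAQ)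
  obtain ⟨r, hr⟩ : ∃ r : M, aeval r A = 0 := by
    obtain ⟨r, hr⟩ := hsplit.exists_eval_eq_zero
      (by rw [degree_map]; exact (degree_pos_of_irreducible hA').ne')
    exact ⟨r, by rwa [eval_map_algebraMap] at hr⟩
  have hint : IsIntegral K r := IsIntegral.of_finite K r
  let N : IntermediateField K M := IntermediateField.adjoin K {r}
  have hmin : minpoly K r = A * C A.leadingCoeff⁻¹ := (minpoly.eq_of_irreducible hA' hr).symm
  have hfr : Module.finrank K N = A.natDegree := by
    rw [IntermediateField.adjoin.finrank hint, hmin, natDegree_mul_C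
      (inv_ne_zero (leadingCoeff_ne_zero.2 hA'.ne_zero))]
  have hle : A.natDegree ≤ n := hQ ▸ natDegree_le_of_dvd hAQ hQ0
  have hprime : A.natDegree = n := by
    have hp := Nat.minFac_prime hA1
    have hpd : A.natDegree.minFac ∣ Module.finrank K M := by
      refine (Nat.minFac_dvd _).trans ?_
      rw [← hfr]
      exact ⟨_, (Module.finrank_mul_finrank K N M).symm⟩
    have hge : n ≤ A.natDegree.minFac := by
      by_contra hlt
      have h2 := hS M _ hp hpd (not_le.1 hlt)
      have : 2 ∣ A.natDegree := h2 ▸ Nat.minFac_dvd _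
      exact (Nat.not_even_iff_odd.2 hAo) (even_iff_two_dvd.2 this)
    have hle2 : A.natDegree.minFac ≤ A.natDegree := Nat.minFac_le hAo.pos
    exact le_antisymm hle (hge.trans hle2)
  have hnormal : Normal K N := hA N (hfr.trans hprime)
  have hNsA : (A.map (algebraMap K N)).Splits := by
    have h1 := hnormal.splits (IntermediateField.AdjoinSimple.gen K r)
    rw [IntermediateField.minpoly_gen, hmin] at h1
    have h2 : (A * C A.leadingCoeff⁻¹).map (algebraMap K N) ≠ 0 :=
      (Polynomial.map_ne_zero_iff (algebraMap K N).injective).2 (hmin ▸ minpoly.ne_zero hint)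
    refine h1.of_dvd h2 ?_
    rw [Polynomial.map_mul]
    exact dvd_mul_right _ _
  obtain ⟨B, hB⟩ := hAQ
  have hNs : (Q.map (algebraMap K N)).Splits := by
    have hB0 : B ≠ 0 := fun h => hQ0 (by rw [hB, h, mul_zero])
    have hdegB : B.natDegree = 0 := by
      have h1 : A.natDegree + B.natDegree = n := by
        rw [← natDegree_mul hA'.ne_zero hB0, ← hB, hQ]
      omega
    obtain ⟨c, hc⟩ := natDegree_eq_zero.1 hdegB
    have h3 := congrArg (Polynomial.map (algebraMap K N)) hB
    rw [← hc, Polynomial.map_mul, map_C] at h3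
    rw [h3]
    exact hNsA.mul (Splits.C _)
  have hsq : IsSquare (algebraMap K N Q.discr) := by
    rw [← discr_map_of_ne (algebraMap K N) hpos
      ((map_ne_zero (algebraMap K N)).2 (leadingCoeff_ne_zero.2 hQ0))]
    exact discr_isSquare_of_splits (by rwa [natDegree_map]) hNs
  refine hd (isSquare_descend ?_ hsq)
  rw [hfr]
  exact fun h => (Nat.not_even_iff_odd.2 hAo) (even_iff_two_dvd.2 h)

/-- No condition on primes is needed in degree three. -/
theorem noSmallOddPrime_three (K : Type u) [Field K] : NoSmallOddPrime 3 K := by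
  intro L _ _ _ _ p hp _ hlt
  have := hp.two_le
  omega

theorem cubic_root_of_normal {K : Type u} [Field K] (hA : NormalInDegree 3 K) {Q : K[X]}
    (hQ : Q.natDegree = 3) (hd : ¬ IsSquare Q.discr) : ∃ y, Q.eval y = 0 :=
  prime_root Nat.prime_three (by norm_num) hA (noSmallOddPrime_three K) hQ hd

end Pool.MP_bfb583_al.TR
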