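import Mathlib
import Pool.Agent.Lib.MP_bfb583_al.TR.Normal
import Pool.Agent.Lib.MP_bfb583_al.TR.Quadratic

/-!
# Quintics with square discriminant, and quartics over fields of odd type
-/

namespace Pool.MP_bfb583_al.TR

open Polynomial

universe u

/-- The discriminant of a product. -/
theorem discr_mul {K : Type u} [Field K] [CharZero K] {A B : K[X]} (hA : 0 < A.natDegree)
    (hB : 0 < B.natDegree) :
    ∃ ρ : K, (A * B).discr = A.discr * B.discr * ρ ^ 2 := by
  have hA0 : A ≠ 0 := by
    rintro rfl
    simp at hA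
  have hB0 : B ≠ 0 := by
    rintro rfl
    simp at hB
  obtain ⟨a, ha⟩ : ∃ a, A.natDegree = a + 1 := ⟨A.natDegree - 1, by omega⟩
  obtain ⟨b, hb⟩ : ∃ b, B.natDegree = b + 1 := ⟨B.natDegree - 1, by omega⟩
  have hAB : (A * B).natDegree = a + b + 2 := by
    rw [natDegree_mul hA0 hB0, ha, hb]
    ring
  have hdA : A.derivative.natDegree = a := by
    rw [natDegree_eq_of_degree_eq_some (degree_derivative hA.ne'), ha]
    rfl
  have hdB : B.derivative.natDegree = b := by
    rw [natDegree_eq_of_degree_eq_some (degree_derivative hB.ne'), hb]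
    rfl
  have hdABn : (A * B).derivative.natDegree ≤ a + b + 1 := by
    have := natDegree_derivative_le (A * B)
    omega
  have h1 := resultant_deriv (f := A * B) (natDegree_pos_iff_degree_pos.1 (by omega))
  have h2 := resultant_deriv (f := A) (natDegree_pos_iff_degree_pos.1 hA)
  have h3 := resultant_deriv (f := B) (natDegree_pos_iff_degree_pos.1 hB)
  rw [hAB, show a + b + 2 - 1 = a + b + 1 by omega] at h1
  rw [ha, show a + 1 - 1 = a by omega] at h2
  rw [hb, show b + 1 - 1 = b by omega] at h3
  have h4 := resultant_mul_left A B (A * B).derivative (a + b + 1) hdABn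
  rw [ha, hb, show a + 1 + (b + 1) = a + b + 2 by ring] at h4
  have h5 : resultant A (A * B).derivative (a + 1) (a + b + 1)
      = resultant A A.derivative (a + 1) a * resultant A B (a + 1) (b + 1) := by
    rw [derivative_mul, resultant_add_mul_right A _ B.derivative _ _ (by omega) (by omega)]
    have := resultant_mul_right A A.derivative B (a + 1) (by omega)
    rwa [hdA, hb, ← add_assoc] at this
  have h6 : resultant B (A * B).derivative (b + 1) (a + b + 1)
      = resultant B B.derivative (b + 1) b * resultant B A (b + 1) (a + 1) := by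
    have hcomm : (A * B).derivative = B.derivative * A + B * A.derivative := by
      rw [derivative_mul]
      ring
    rw [hcomm, resultant_add_mul_right B _ A.derivative _ _ (by omega) (by omega)]
    have := resultant_mul_right B B.derivative A (b + 1) (by omega)
    rwa [hdB, ha, show b + (a + 1) = a + b + 1 by ring] at this
  have h7 : resultant B A (b + 1) (a + 1)
      = (-1) ^ ((b + 1) * (a + 1)) * resultant A B (a + 1) (b + 1) := resultant_comm _ _ _ _
  have hlc : (A * B).leadingCoeff = A.leadingCoeff * B.leadingCoeff := leadingCoeff_mul A B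
  have hlA : A.leadingCoeff ≠ 0 := leadingCoeff_ne_zero.2 hA0
  have hlB : B.leadingCoeff ≠ 0 := leadingCoeff_ne_zero.2 hB0
  refine ⟨resultant A B (a + 1) (b + 1), ?_⟩
  rw [h4, h5, h6, h7, h2, h3, hlc] at h1
  -- signs
  have hsign : (-1 : K) ^ ((a + b + 2) * (a + b + 1) / 2)
      = (-1) ^ ((a + 1) * a / 2) * (-1) ^ ((b + 1) * b / 2) * (-1) ^ ((b + 1) * (a + 1)) := by
    rw [← pow_add, ← pow_add]
    congr 1
    have ea : 2 ∣ (a + 1) * a := (Nat.even_mul_pred_self (a + 1)).two_dvd
    have eb : 2 ∣ (b + 1) * b := (Nat.even_mul_pred_self (b + 1)).two_dvd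
    obtain ⟨s, hs⟩ := ea
    obtain ⟨t, ht⟩ := eb
    rw [hs, ht]
    have : (a + b + 2) * (a + b + 1) = 2 * (s + t + (b + 1) * (a + 1)) := by
      nlinarith
    rw [this]
    omega
  rw [hsign] at h1
  have hε : ∀ n : ℕ, ((-1 : K) ^ n) ≠ 0 := fun n => pow_ne_zero _ (neg_ne_zero.2 one_ne_zero)
  have hne : (-1 : K) ^ ((a + 1) * a / 2) * (-1) ^ ((b + 1) * b / 2) * (-1) ^ ((b + 1) * (a + 1))
      * (A.leadingCoeff * B.leadingCoeff) ≠ 0 :=
    mul_ne_zero (mul_ne_zero (mul_ne_zero (hε _) (hε _)) (hε _)) (mul_ne_zero hlA hlB)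
  refine mul_left_cancel₀ hne ?_
  rw [← h1]
  ring

/-- The degree of an irreducible polynomial divides the degree of its splitting field. -/
theorem natDegree_dvd_splittingField {K : Type u} [Field K] {A : K[X]} (hA : Irreducible A) :
    A.natDegree ∣ Module.finrank K A.SplittingField := by
  obtain ⟨r, hr⟩ := (SplittingField.splits A).exists_eval_eq_zero
    (by rw [degree_map]; exact (degree_pos_of_irreducible hA).ne')
  rw [eval_map_algebraMap] at hr
  have hint : IsIntegral K r := IsIntegral.of_finite K r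
  have hmin : minpoly K r = A * C A.leadingCoeff⁻¹ := (minpoly.eq_of_irreducible hA hr).symm
  have h := minpoly.degree_dvd hint
  rwa [hmin, natDegree_mul_C (inv_ne_zero (leadingCoeff_ne_zero.2 hA.ne_zero))] at h

/-- Quintics with nonzero square discriminant. -/
theorem quintic_root {K : Type u} [Field K] [CharZero K] (h3 : NormalInDegree 3 K)
    (h5 : ∀ (L : Type u) [Field L] [Algebra K L] [FiniteDimensional K L] [IsGalois K L],
      ¬ 5 ∣ Module.finrank K L)
    {Q : K[X]} (hQ : Q.natDegree = 5) (hd0 : Q.discr ≠ 0) (hd : IsSquare Q.discr) :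
    ∃ y, Q.eval y = 0 := by
  have hQ0 : Q ≠ 0 := by
    rintro rfl
    simp at hQ
  by_contra hno
  push Not at hno
  have hlin : ∀ D : K[X], D ∣ Q → D.natDegree ≠ 1 := by
    intro D hD h
    have hD0 : D ≠ 0 := by
      rintro rfl
      simp at h
    obtain ⟨y, hy⟩ := exists_root_of_degree_eq_one (p := D)
      (by rw [degree_eq_natDegree hD0, h]; rfl)
    exact hno y (eval_eq_zero_of_dvd_of_eval_eq_zero hD hy)
  obtain ⟨A, hA, hAQ, hAo⟩ := exists_irreducible_factor_odd 5 Q hQ (by decide)
  have hle : A.natDegree ≤ 5 := hQ ▸ natDegree_le_of_dvd hAQ hQ0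
  have hA1 := hlin A hAQ
  have hA5 : A.natDegree ≠ 5 := by
    intro h
    have hgal : IsGalois K A.SplittingField := IsGalois.of_separable_splitting_field hA.separable
    exact h5 A.SplittingField (h ▸ natDegree_dvd_splittingField hA)
  have hA3 : A.natDegree = 3 := by
    interval_cases h : A.natDegree
    · exact absurd hAo (by decide)
    · exact absurd rfl hA1
    · exact absurd hAo (by decide)
    · rfl
    · exact absurd hAo (by decide)
    · exact absurd rfl hA5
  obtain ⟨B, hB⟩ := hAQ
  have hB0 : B ≠ 0 := fun h => hQ0 (by rw [hB, h, mul_zero])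
  have hB2 : B.natDegree = 2 := by
    have h1 : A.natDegree + B.natDegree = 5 := by
      rw [← natDegree_mul hA.ne_zero hB0, ← hB, hQ]
    omega
  obtain ⟨ρ, hρ⟩ := discr_mul (A := A) (B := B) (by omega) (by omega)
  rw [← hB] at hρ
  have hAns : ¬ IsSquare A.discr := by
    rintro ⟨α, hα⟩
    have hα0 : α ≠ 0 := by
      rintro rfl
      rw [hρ, hα] at hd0
      simp at hd0
    have hρ0 : ρ ≠ 0 := by
      rintro rfl
      rw [hρ] at hd0
      simp at hd0
    obtain ⟨δ, hδ⟩ := hd
    have hBsq : IsSquare B.discr := by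
      refine ⟨δ / (α * ρ), ?_⟩
      rw [hρ, hα] at hδ
      field_simp
      linear_combination hδ
    obtain ⟨y, hy⟩ := quadratic_root two_ne_zero hB2 hBsq
    exact hno y (by rw [hB, eval_mul, hy, mul_zero])
  obtain ⟨y, hy⟩ := cubic_root_of_normal h3 hA3 hAns
  exact hno y (by rw [hB, eval_mul, hy, zero_mul])

/-- Quartics over fields of characteristic zero all of whose Galois extensions have odd degree. -/
theorem quartic_root_odd {K : Type u} [Field K] [CharZero K]
    (hK : ∀ (L : Type u) [Field L] [Algebra K L] [FiniteDimensional K L] [IsGalois K L],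
      Odd (Module.finrank K L))
    {Q : K[X]} (hQ : Q.natDegree = 4) : ∃ y, Q.eval y = 0 := by
  have hirr : ∀ A : K[X], Irreducible A → Odd A.natDegree := by
    intro A hA
    have hgal : IsGalois K A.SplittingField := IsGalois.of_separable_splitting_field hA.separable
    exact (hK A.SplittingField).of_dvd_nat (natDegree_dvd_splittingField hA)
  have hQ0 : Q ≠ 0 := by
    rintro rfl
    simp at hQ
  have hnu : ¬ IsUnit Q := fun h => by
    have := natDegree_eq_zero_of_isUnit h
    omega
  obtain ⟨A, hA, hAQ⟩ := WfDvdMonoid.exists_irreducible_factor hnu hQ0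
  have hroot1 : ∀ D : K[X], D ∣ Q → D.natDegree = 1 → ∃ y, Q.eval y = 0 := by
    intro D hD h
    have hD0 : D ≠ 0 := by
      rintro rfl
      simp at h
    obtain ⟨y, hy⟩ := exists_root_of_degree_eq_one (p := D)
      (by rw [degree_eq_natDegree hD0, h]; rfl)
    exact ⟨y, eval_eq_zero_of_dvd_of_eval_eq_zero hD hy⟩
  have hle : A.natDegree ≤ 4 := hQ ▸ natDegree_le_of_dvd hAQ hQ0
  have hAo := hirr A hA
  obtain ⟨B, hB⟩ := hAQ
  have hB0 : B ≠ 0 := fun h => hQ0 (by rw [hB, h, mul_zero])
  have hsum : A.natDegree + B.natDegree = 4 := by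
    rw [← natDegree_mul hA.ne_zero hB0, ← hB, hQ]
  have hcases : A.natDegree = 1 ∨ A.natDegree = 3 := by
    obtain ⟨m, hm⟩ := hAo
    omega
  rcases hcases with h | h
  · exact hroot1 A (hB ▸ dvd_mul_right A B) h
  · exact hroot1 B (hB ▸ dvd_mul_left B A) (by omega)

end Pool.MP_bfb583_al.TR
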