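import Mathlib
import Pool.Agent.Lib.MP_bfb583_al.TR.Const
import Pool.Agent.Lib.MP_bfb583_al.TR.Normal
import Pool.Agent.Lib.MP_bfb583_al.TR.Quintic
import Pool.Agent.Lib.MP_bfb583_al.TR.Quad

/-!
# Points on covers of the line of small degree
-/

namespace Pool.MP_bfb583_al.TR

open Polynomial

universe u v

/-- Covers of prime degree whose discriminant takes non-square values. -/
theorem points_of_cover {K : Type u} [Field K]
    (P : K[X][X]) (hp : P.natDegree.Prime) (hp2 : P.natDegree ≠ 2)
    (hA : NormalInDegree P.natDegree K) (hS : NoSmallOddPrime P.natDegree K)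
    (hD : {x : K | ¬ IsSquare (P.discr.eval x)}.Infinite) :
    {p : K × K | ¬ IsSquare (P.discr.eval p.1) ∧ P.evalEval p.1 p.2 = 0}.Infinite :=
  points_of_root hp.pos (fun _ hQ hd => prime_root hp hp2 hA hS hQ hd) rfl hD

/-- Covers of prime degree with a rational branch point, over arbitrary fields. -/
theorem covers {K : Type u} [Field K] [Infinite K] (hK : ∃ d : K, ¬ IsSquare d)
    (P : K[X][X]) (hp : P.natDegree.Prime) (hp2 : P.natDegree ≠ 2)
    (hA : NormalInDegree P.natDegree K) (hS : NoSmallOddPrime P.natDegree K)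
    {h q : K[X]} {r : K} {E : Finset K} (hd : ¬ IsSquare P.discr)
    (hq : q = 1 ∨ (Irreducible q ∧ q.natDegree = 2 ∧ E.Nonempty))
    (hD : P.discr = C r * h ^ 2 * q * ∏ e ∈ E, (X - C e)) :
    {p : K × K | ¬ IsSquare (P.discr.eval p.1) ∧ P.evalEval p.1 p.2 = 0}.Infinite :=
  points_of_cover P hp hp2 hA hS (infinite_nonsquare_of_not_square hK hd hq hD)

section Const

variable {k : Type v} {K : Type u} [Field k] [IsAlgClosed k] [Field K] [Algebra k K]

omit [IsAlgClosed k] in
theorem eval_spec (P : k[X][X]) (x y : K) :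
    (P.map (mapRingHom (algebraMap k K))).evalEval x y
      = (P.map (aeval x : k[X] →ₐ[k] K).toRingHom).eval y := by
  rw [← map_evalRingHom_eval, Polynomial.map_map]
  congr 2
  ext a
  · simp
  · simp

omit [IsAlgClosed k] in
/-- Collecting points from fibres. -/
theorem points_of_fibres (P : k[X][X]) {S : Set K} (hS : S.Infinite)
    (hx : ∀ x ∈ S, x ∉ Set.range (algebraMap k K) ∧
      ∃ y : K, (P.map (aeval x : k[X] →ₐ[k] K).toRingHom).eval y = 0) :
    {p : K × K | p.1 ∉ Set.range (algebraMap k K) ∧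
      (P.map (mapRingHom (algebraMap k K))).evalEval p.1 p.2 = 0}.Infinite := by
  refine Set.Infinite.of_image Prod.fst (hS.mono ?_)
  intro x hxS
  obtain ⟨h1, y, hy⟩ := hx x hxS
  exact ⟨(x, y), ⟨h1, by rw [eval_spec]; exact hy⟩, rfl⟩

/-- Degree and discriminant of the fibre. -/
theorem fibre {P : k[X][X]} (hP : 0 < P.natDegree) {x : K}
    (hx : x ∉ Set.range (algebraMap k K)) :
    (P.map (aeval x : k[X] →ₐ[k] K).toRingHom).natDegree = P.natDegree ∧
    (P.map (aeval x : k[X] →ₐ[k] K).toRingHom).discr = aeval x P.discr := by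
  have hP0 : P ≠ 0 := by
    rintro rfl
    simp at hP
  have hl : (aeval x : k[X] →ₐ[k] K).toRingHom P.leadingCoeff ≠ 0 :=
    aeval_ne_zero hx (leadingCoeff_ne_zero.2 hP0)
  exact ⟨natDegree_map_of_leadingCoeff_ne_zero _ hl, discr_map_of_ne _ hP hl⟩

theorem infinite_outside (hne : ¬ Function.Surjective (algebraMap k K)) :
    {x : K | x ∉ Set.range (algebraMap k K)}.Infinite := by
  refine (infinite_powers (n := 1) hne one_pos ?_ (0 : k[X])).mono fun x hx => hx.1
  have : (powMonoidHom 1 : Kˣ →* Kˣ).range = ⊤ := by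
    rw [MonoidHom.range_eq_top]
    exact fun x => ⟨x, by simp⟩
  rw [FinitePowerClasses, this]
  infer_instance

theorem const_two [CharZero K] (hne : ¬ Function.Surjective (algebraMap k K)) (P : k[X][X])
    (hP : P.natDegree = 2) (hF : FinitePowerClasses 2 K) :
    {p : K × K | p.1 ∉ Set.range (algebraMap k K) ∧
      (P.map (mapRingHom (algebraMap k K))).evalEval p.1 p.2 = 0}.Infinite := by
  refine points_of_fibres P (infinite_powers hne two_pos hF P.discr) ?_
  rintro x ⟨hx, u, hu⟩
  refine ⟨hx, ?_⟩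
  obtain ⟨h1, h2⟩ := fibre (P := P) (by omega) hx
  refine quadratic_root two_ne_zero (h1.trans hP) ?_
  rw [h2, ← hu]
  exact ⟨u, pow_two u⟩

theorem const_four [CharZero K] (hne : ¬ Function.Surjective (algebraMap k K)) (P : k[X][X])
    (hP : P.natDegree = 4)
    (hK : ∀ (L : Type u) [Field L] [Algebra K L] [FiniteDimensional K L] [IsGalois K L],
      Odd (Module.finrank K L)) :
    {p : K × K | p.1 ∉ Set.range (algebraMap k K) ∧
      (P.map (mapRingHom (algebraMap k K))).evalEval p.1 p.2 = 0}.Infinite := by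
  refine points_of_fibres P (infinite_outside hne) ?_
  intro x hx
  refine ⟨hx, ?_⟩
  obtain ⟨h1, h2⟩ := fibre (P := P) (by omega) hx
  exact quartic_root_odd hK (h1.trans hP)

theorem const_five [CharZero K] (hne : ¬ Function.Surjective (algebraMap k K)) (P : k[X][X])
    (hP : P.natDegree = 5) (hd : P.discr ≠ 0) (h3 : NormalInDegree 3 K)
    (hF : FinitePowerClasses 2 K)
    (h5 : ∀ (L : Type u) [Field L] [Algebra K L] [FiniteDimensional K L] [IsGalois K L],
      ¬ 5 ∣ Module.finrank K L) :
    {p : K × K | p.1 ∉ Set.range (algebraMap k K) ∧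
      (P.map (mapRingHom (algebraMap k K))).evalEval p.1 p.2 = 0}.Infinite := by
  refine points_of_fibres P (infinite_powers hne two_pos hF P.discr) ?_
  rintro x ⟨hx, u, hu⟩
  refine ⟨hx, ?_⟩
  obtain ⟨h1, h2⟩ := fibre (P := P) (by omega) hx
  refine quintic_root h3 h5 (h1.trans hP) ?_ ?_
  · rw [h2]
    exact aeval_ne_zero hx hd
  · rw [h2, ← hu]
    exact ⟨u, pow_two u⟩

theorem const_prime (hK : ∃ d : K, ¬ IsSquare d) (P : k[X][X])
    (hp : P.natDegree.Prime) (hp2 : P.natDegree ≠ 2)
    (hA : NormalInDegree P.natDegree K) (hS : NoSmallOddPrime P.natDegree K)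
    (hd : ¬ IsSquare P.discr) :
    {p : K × K | p.1 ∉ Set.range (algebraMap k K) ∧
      (P.map (mapRingHom (algebraMap k K))).evalEval p.1 p.2 = 0}.Infinite := by
  classical
  have hk : Infinite k := IsAlgClosed.instInfinite
  have hKinf : Infinite K := Infinite.of_injective _ (algebraMap k K).injective
  have hpos : 0 < P.natDegree := hp.pos
  have hd0 : P.discr ≠ 0 := fun h => hd (h ▸ ⟨0, by simp⟩)
  obtain ⟨r, h, E, hr, hh, hD⟩ := exists_odd_part hd0
  have hE : E.Nonempty := by
    rw [Finset.nonempty_iff_ne_empty]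
    rintro rfl
    obtain ⟨ρ, hρ⟩ := IsAlgClosed.exists_pow_nat_eq r two_pos
    apply hd
    refine ⟨C ρ * h, ?_⟩
    rw [hD, Finset.prod_empty, mul_one, ← hρ, C_pow]
    ring
  set φ : k[X] →+* K[X] := mapRingHom (algebraMap k K) with hφ
  have hφinj : Function.Injective φ := Polynomial.map_injective _ (algebraMap k K).injective
  have hP0 : P ≠ 0 := by
    rintro rfl
    simp at hpos
  have hdeg : (P.map φ).natDegree = P.natDegree := natDegree_map_eq_of_injective hφinj P
  have hdis : (P.map φ).discr = φ P.discr :=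
    discr_map_of_ne φ hpos fun h0 => leadingCoeff_ne_zero.2 hP0 (hφinj (by rw [h0, map_zero]))
  have hD' : (P.map φ).discr = C (algebraMap k K r) * (φ h) ^ 2
      * ∏ e ∈ E.image (algebraMap k K), (X - C e) := by
    rw [hdis, hD, map_mul, map_mul, map_pow, map_prod,
      Finset.prod_image fun a _ b _ hab => (algebraMap k K).injective hab]
    simp [hφ]
  have hmain := points_of_cover (P.map φ) (by rwa [hdeg]) (by rwa [hdeg]) (by rwa [hdeg])
    (by rwa [hdeg])
    (infinite_nonsquare' hK ((map_ne_zero (algebraMap k K)).2 hr)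
      (fun h0 => hh (hφinj (by rw [h0, map_zero]))) (Or.inl (hE.image _)) hD')
  refine hmain.mono ?_
  rintro ⟨x, y⟩ ⟨hx, hy⟩
  refine ⟨?_, hy⟩
  rintro ⟨c, hc⟩
  apply hx
  obtain ⟨ρ, hρ⟩ := IsAlgClosed.exists_pow_nat_eq (P.discr.eval c) two_pos
  refine ⟨algebraMap k K ρ, ?_⟩
  simp only at hc
  rw [hdis, ← hc, hφ, coe_mapRingHom, eval_map_apply, ← hρ, map_pow, pow_two]

theorem const_three_square [CharZero K] [CharZero k]
    (hne : ¬ Function.Surjective (algebraMap k K)) (P : k[X][X])
    (hP : P.natDegree = 3) (hF : FinitePowerClasses 3 K) (hd : IsSquare P.discr) :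
    {p : K × K | p.1 ∉ Set.range (algebraMap k K) ∧
      (P.map (mapRingHom (algebraMap k K))).evalEval p.1 p.2 = 0}.Infinite := by
  obtain ⟨δ, hδ⟩ := hd
  obtain ⟨σ, hσ⟩ := IsAlgClosed.exists_pow_nat_eq (-27 : k) two_pos
  set a := P.coeff 3 with ha
  set b := P.coeff 2 with hb
  set c := P.coeff 1 with hc
  set d := P.coeff 0 with hdd
  have hP0 : P ≠ 0 := by
    rintro rfl
    simp at hP
  have ha0 : a ≠ 0 := by
    rw [ha, ← hP]
    exact leadingCoeff_ne_zero.2 hP0
  set q : k[X] := 2 * b ^ 3 - 9 * a * b * c + 27 * a ^ 2 * d with hq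
  -- the main step, for a choice of the sign of the square root
  have main : ∀ τ : k, τ ^ 2 = -27 →
      (C (1 / 2 : k) * (-q + C τ * a * δ) = 0 → q = 0) →
      {p : K × K | p.1 ∉ Set.range (algebraMap k K) ∧
        (P.map (mapRingHom (algebraMap k K))).evalEval p.1 p.2 = 0}.Infinite := by
    intro τ hτ hzero
    refine points_of_fibres P
      (infinite_powers hne three_pos hF (C (1 / 2 : k) * (-q + C τ * a * δ))) ?_
    rintro x ⟨hx, u, hu⟩
    refine ⟨hx, ?_⟩
    obtain ⟨h1, h2⟩ := fibre (P := P) (by omega) hx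
    set Q := P.map (aeval x : k[X] →ₐ[k] K).toRingHom with hQ
    have hQ3 : Q.natDegree = 3 := h1.trans hP
    have hQ0 : Q ≠ 0 := by
      rintro h0
      rw [h0] at hQ3
      simp at hQ3
    have hQdeg : Q.degree = 3 := by
      rw [degree_eq_natDegree hQ0, hQ3]
      rfl
    have hc3 : Q.coeff 3 = aeval x a := by rw [hQ, coeff_map]; rfl
    have hc2 : Q.coeff 2 = aeval x b := by rw [hQ, coeff_map]; rfl
    have hc1 : Q.coeff 1 = aeval x c := by rw [hQ, coeff_map]; rfl
    have hc0 : Q.coeff 0 = aeval x d := by rw [hQ, coeff_map]; rfl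
    rw [discr_of_degree_eq_three hQdeg, hc3, hc2, hc1, hc0, hδ, map_mul] at h2
    have hτ' : (algebraMap k K τ) ^ 2 = -27 := by
      rw [← map_pow, hτ, map_neg, map_ofNat]
    have hq' : aeval x q = 2 * (aeval x b) ^ 3 - 9 * (aeval x a) * (aeval x b) * (aeval x c)
        + 27 * (aeval x a) ^ 2 * (aeval x d) := by
      rw [hq]
      simp only [map_add, map_sub, map_mul, map_pow, map_ofNat]
    obtain ⟨y, hy⟩ := cardano (aeval x a) (aeval x b) (aeval x c) (aeval x d)
      (algebraMap k K τ * aeval x a * aeval x δ) u (aeval_ne_zero hx ha0)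
      (by
        linear_combination (aeval x a) ^ 2 * (aeval x δ) ^ 2 * hτ' + 27 * (aeval x a) ^ 2 * h2)
      (by
        rw [hu, ← hq']
        simp only [map_mul, map_add, map_neg, aeval_C, map_div₀, map_one, map_ofNat]
        ring)
      (by
        intro hu0
        rw [← hq']
        rw [hu0] at hu
        have h0 : C (1 / 2 : k) * (-q + C τ * a * δ) = 0 := by
          by_contra hne0
          refine aeval_ne_zero hx hne0 ?_
          rw [← hu]
          norm_num
        rw [hzero h0, map_zero])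
    refine ⟨y, ?_⟩
    rw [eval_eq_sum_range, hQ3]
    simp only [Finset.sum_range_succ, Finset.sum_range_zero, hc3, hc2, hc1, hc0]
    linear_combination hy
  by_cases hA : C (1 / 2 : k) * (-q + C σ * a * δ) = 0
  · by_cases hB : C (1 / 2 : k) * (-q + C (-σ) * a * δ) = 0
    · refine main σ hσ fun _ => ?_
      have h1 : C (1 / 2 : k) * (-q + C σ * a * δ) + C (1 / 2 : k) * (-q + C (-σ) * a * δ) = 0 := by
        rw [hA, hB, add_zero]
      have h2 : C (1 / 2 : k) * 2 = (1 : k[X]) := by
        rw [show (2 : k[X]) = C 2 from rfl, ← C_mul]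
        norm_num
      rw [C_neg] at h1
      have h3 : C (1 / 2 : k) * 2 * q = 0 := by linear_combination -h1
      rwa [h2, one_mul] at h3
    · exact main (-σ) (by rw [neg_sq, hσ]) fun h => absurd h hB
  · exact main σ hσ fun h => absurd h hA

end Const

end Pool.MP_bfb583_al.TR
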