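import Mathlib
import Pool.Agent.Lib.MP_bfb583_al.TR.Main
import Pool.Agent.Lib.MP_bfb583_al.TR.Cyclic

/-!
# Curves of gonality at most four over an algebraically closed subfield
-/

namespace Pool.MP_bfb583_al.TR

open Polynomial

universe u v

theorem exists_primitive {k : Type v} [Field k] [IsAlgClosed k] [CharZero k] {n : ℕ}
    (hn : 0 < n) : ∃ ζ : k, IsPrimitiveRoot ζ n := by
  obtain ⟨ζ, hζ⟩ := IsAlgClosed.exists_root (cyclotomic n k)
    (degree_cyclotomic_pos n k hn).ne'
  have : NeZero (n : k) := ⟨Nat.cast_ne_zero.2 hn.ne'⟩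
  exact ⟨ζ, isRoot_cyclotomic_iff.1 hζ⟩

/-- Curves over an algebraically closed subfield given by an equation of degree at most four. -/
theorem low_degree (k : Type v) (K : Type u) [Field k] [IsAlgClosed k] [CharZero k] [Field K]
    [Algebra k K] (hne : ¬ Function.Surjective (algebraMap k K))
    (hK : GaloisCyclic K ∨
      (NormalInDegree 3 K ∧ FinitePowerClasses 2 K ∧ FinitePowerClasses 3 K))
    (P : k[X][X])
    (hP : P.natDegree = 2 ∨ (P.natDegree = 3 ∧ ∃ d : K, ¬ IsSquare d) ∨
      (P.natDegree = 4 ∧
        ∀ (L : Type u) [Field L] [Algebra K L] [FiniteDimensional K L] [IsGalois K L],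
          Odd (Module.finrank K L)) ∨
      (P.natDegree = 5 ∧ P.discr ≠ 0 ∧
        ∀ (L : Type u) [Field L] [Algebra K L] [FiniteDimensional K L] [IsGalois K L],
          ¬ 5 ∣ Module.finrank K L)) :
    {p : K × K | p.1 ∉ Set.range (algebraMap k K) ∧
      (P.map (mapRingHom (algebraMap k K))).evalEval p.1 p.2 = 0}.Infinite := by
  have hchar : CharZero K := charZero_of_injective_algebraMap (algebraMap k K).injective
  have hK' : NormalInDegree 3 K ∧ FinitePowerClasses 2 K ∧ FinitePowerClasses 3 K := by
    rcases hK with hK | hK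
    · refine ⟨normalInDegree_of_nilpotent (nilpotent_of_cyclic hK) Nat.prime_three, ?_, ?_⟩
      · obtain ⟨ζ, hζ⟩ := exists_primitive (k := k) (n := 2) (by norm_num)
        exact finitePowerClasses_of_cyclic hK Nat.prime_two
          (hζ.map_of_injective (algebraMap k K).injective)
      · obtain ⟨ζ, hζ⟩ := exists_primitive (k := k) (n := 3) (by norm_num)
        exact finitePowerClasses_of_cyclic hK Nat.prime_three
          (hζ.map_of_injective (algebraMap k K).injective)
    · exact hK
  obtain ⟨hnil, h2, h3⟩ := hK'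
  rcases hP with hP | ⟨hP, hns⟩ | ⟨hP, hodd⟩ | ⟨hP, hd, h5⟩
  · exact const_two hne P hP h2
  · by_cases hd : IsSquare P.discr
    · exact const_three_square hne P hP h3 hd
    · exact const_prime hns P (by rw [hP]; exact Nat.prime_three) (by omega) (by rwa [hP])
        (by rw [hP]; exact noSmallOddPrime_three K) hd
  · exact const_four hne P hP hodd
  · exact const_five hne P hP hd hnil h2 h5

end Pool.MP_bfb583_al.TR
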